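import Pool.Agent.H26.Lib.R_seed8.W353.SN.Stable2

/-! Bounded class functions on large symmetric groups with integral mean values on the Young
subgroups are combinations of the trivial and the sign character. -/

set_option autoImplicit false
set_option linter.unusedSectionVars false

namespace Pool.Agent.W353.SN

open Equiv Equiv.Perm Filter Topology

/-- the property of a class function with values bounded by `N` -/
def Lin {X : Type} [Fintype X] [DecidableEq X] (θ : Perm X → ℝ) : Prop :=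
  ∃ a b : ℤ, ∀ g, θ g = a + b * ((sign g : ℤ) : ℝ)

theorem sign_eq_ite {X : Type} [Fintype X] [DecidableEq X] (g : Perm X) :
    sign g = if Even (g.cycleType.sum + Multiset.card g.cycleType) then 1 else -1 := by
  rw [sign_of_cycleType]
  split_ifs with h
  · exact h.neg_one_pow
  · exact (Nat.not_even_iff_odd.1 h).neg_one_pow

/-- a permutation with a large deviation and small support -/
theorem exists_bad {X : Type} [Fintype X] [DecidableEq X] (hX : 2 ≤ Fintype.card X)
    {θ : Perm X → ℝ} (hcl : ∀ g u, θ (u * g * u⁻¹) = θ g) (hy : YMean θ) {N : ℝ}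
    (hN : ∀ g, |θ g| ≤ N) (hne : ¬ Lin θ) {k : ℕ} (hk : 2 * N < k) :
    ∃ g : Perm X, g.cycleType.sum < k * k ∧ ∃ t : Perm X, t.cycleType = {2} ∧
      1 ≤ |θ g - if Even (g.cycleType.sum + Multiset.card g.cycleType) then θ 1 else θ t| := by
  classical
  obtain ⟨x, y, hxy⟩ := Fintype.one_lt_card_iff.1 hX
  obtain ⟨A, hA⟩ := int_one hy
  obtain ⟨m, hm⟩ := int_swap hy hxy
  have hT : θ (swap x y) = ((2 * m - A : ℤ) : ℝ) := by
    push_cast
    linarith
  have hval : ∀ g : Perm X, (m : ℝ) + ((A - m : ℤ) : ℝ) * ((sign g : ℤ) : ℝ) =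
      if Even (g.cycleType.sum + Multiset.card g.cycleType) then θ 1 else θ (swap x y) := by
    intro g
    rw [sign_eq_ite]
    split_ifs
    · rw [hA]
      push_cast
      simp
    · rw [hT]
      push_cast
      simp
      ring
  have hbd : ∀ g : Perm X, |(m : ℝ) + ((A - m : ℤ) : ℝ) * ((sign g : ℤ) : ℝ)| ≤ N := by
    intro g
    rw [hval]
    split_ifs
    · exact hN _
    · exact hN _
  have hN0 : 0 ≤ N := (abs_nonneg _).trans (hN 1)
  have hkpos : 0 < k := by
    have : (0 : ℝ) < k := by linarith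
    exact_mod_cast this
  by_contra hcon
  push Not at hcon
  apply hne
  refine ⟨m, A - m, fun g => ?_⟩
  have h1 := reduce2 (η := fun g => θ g - (m + ((A - m : ℤ) : ℝ) * ((sign g : ℤ) : ℝ)))
    (fun g u => by
      rw [hcl, Perm.sign_mul, Perm.sign_mul, Perm.sign_inv]
      have : sign u * sign g * sign u = sign g := by
        rw [mul_comm (sign u) (sign g), mul_assoc]
        rcases Int.units_eq_one_or (sign u) with h | h <;> rw [h] <;> simp
      rw [this]) (int_sub hy m (A - m)) (M := 2 * N) (fun g => by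
      refine (abs_sub _ _).trans ?_
      have h2 := hN g
      have h3 := hbd g
      linarith) hk (fun g => by
      by_cases hs : g.cycleType.sum < k * k
      · right
        have h2 := hcon g hs (swap x y) (by
          rw [(isCycle_swap hxy).cycleType, card_support_swap hxy])
        rw [hval]
        exact h2
      · exact Or.inl (many_support (not_lt.1 hs) hkpos)) g
  linarith

section
variable {m : ℕ → ℕ} (θ : ∀ n, Perm (Fin (m n)) → ℝ)

open Classical in
/-- the function of the cycle type -/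
noncomputable def FF (n : ℕ) (μ : Multiset ℕ) : ℝ :=
  if h : ∃ g : Perm (Fin (m n)), g.cycleType = μ then θ n h.choose else 0

variable (hcl : ∀ n g u, θ n (u * g * u⁻¹) = θ n g)

include hcl in
theorem FF_ct (n : ℕ) (g : Perm (Fin (m n))) : FF θ n g.cycleType = θ n g := by
  unfold FF
  have h : ∃ g' : Perm (Fin (m n)), g'.cycleType = g.cycleType := ⟨g, rfl⟩
  rw [dif_pos h]
  have h1 := h.choose_spec
  obtain ⟨u, hu⟩ := isConj_iff.1 (isConj_of_cycleType_eq h1)
  have h2 := hcl n h.choose u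
  rw [hu] at h2
  exact h2.symm

theorem FF_le {N : ℝ} (hN : ∀ n g, |θ n g| ≤ N) (n : ℕ) (μ : Multiset ℕ) : |FF θ n μ| ≤ N := by
  unfold FF
  split_ifs with h
  · exact hN _ _
  · rw [abs_zero]
    exact (abs_nonneg _).trans (hN n 1)

include hcl in
/-- the limit has integral mean values -/
theorem limit_IsL (hm : ∀ n, n ≤ m n) (hys : ∀ n, YS (θ n)) (𝒰 : Ultrafilter ℕ)
    (h𝒰 : (𝒰 : Filter ℕ) ≤ atTop) {f : Multiset ℕ → ℝ}
    (hf : ∀ μ, Tendsto (fun n => FF θ n μ) 𝒰 (𝓝 (f μ))) : IsL f := by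
  classical
  intro X _ _ r
  let _ : Fintype (yg r) := Fintype.ofFinite _
  have hc0 : (Nat.card (yg r) : ℝ) ≠ 0 := by exact_mod_cast Nat.card_pos.ne'
  have h1 : Tendsto (fun n => (∑ h : yg r, FF θ n (h : Perm X).cycleType) / Nat.card (yg r)) 𝒰
      (𝓝 ((∑ h : yg r, f (h : Perm X).cycleType) / Nat.card (yg r))) :=
    (tendsto_finsetSum (Finset.univ : Finset (yg r)) fun (h : yg r) _ =>
      hf (h : Perm X).cycleType).div_const _
  have h2 : ∀ᶠ n in (𝒰 : Filter ℕ), (∑ h : yg r, FF θ n (h : Perm X).cycleType) /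
      Nat.card (yg r) ∈ Set.range ((↑) : ℤ → ℝ) := by
    refine ((eventually_ge_atTop (Fintype.card X)).filter_mono h𝒰).mono fun n hn => ?_
    have h3 : Fintype.card X ≤ Fintype.card (Fin (m n)) := by
      rw [Fintype.card_fin]
      exact hn.trans (hm n)
    obtain ⟨e⟩ := Function.Embedding.nonempty_of_card_le h3
    obtain ⟨k, hk⟩ := (hys n).via e r
    refine ⟨k, ?_⟩
    rw [eq_div_iff hc0, ← hk, finsum_eq_sum_of_fintype]
    refine Finset.sum_congr rfl fun h _ => ?_
    change θ n (viaEmbeddingHom e (h : Perm X)) = FF θ n (h : Perm X).cycleType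
    rw [← FF_ct θ hcl n, ct_via]
  have h4 : (∑ h : yg r, f (h : Perm X).cycleType) / Nat.card (yg r) ∈
      Set.range ((↑) : ℤ → ℝ) :=
    (Int.isClosedEmbedding_coe_real.isClosed_range).mem_of_tendsto h1 h2
  obtain ⟨k, hk⟩ := h4
  refine ⟨k, ?_⟩
  rw [finsum_eq_sum_of_fintype, hk, div_mul_cancel₀ _ hc0]

end

/-- the theorem for the standard finite sets -/
theorem big_fin (N : ℝ) : ∃ n₀ : ℕ, ∀ m, n₀ ≤ m → ∀ θ : Perm (Fin m) → ℝ,
    (∀ g u, θ (u * g * u⁻¹) = θ g) → YS θ → (∀ g, |θ g| ≤ N) → Lin θ := by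
  classical
  by_contra hcon
  push Not at hcon
  choose m hm θ hcl hys hN hne using fun n => hcon (n + 2)
  have hm' : ∀ n, n ≤ m n := fun n => by have := hm n; omega
  obtain ⟨k, hk⟩ := exists_nat_gt (2 * N)
  have hbad := fun n => exists_bad (by rw [Fintype.card_fin]; have := hm n; omega)
    (hcl n) (hys n).ymean (hN n) (hne n) hk
  choose g hg1 t ht1 hg2 using hbad
  -- the cycle types
  have hy : ∀ n, ∃ y : Perm (Fin (k * k)), y.cycleType = (g n).cycleType := fun n =>
    (Equiv.Perm.exists_with_cycleType_iff (Fin (k * k))).2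
      ⟨by rw [Fintype.card_fin]; exact (hg1 n).le, val_ct (g n)⟩
  choose y hy using hy
  set 𝒰 : Ultrafilter ℕ := hyperfilter ℕ with h𝒰d
  have h𝒰 : (𝒰 : Filter ℕ) ≤ atTop := by
    rw [← Nat.cofinite_eq_atTop]
    exact hyperfilter_le_cofinite
  obtain ⟨z, hz⟩ := (𝒰.map y).eq_pure_of_finite
  have hz' : ∀ᶠ n in (𝒰 : Filter ℕ), y n = z := by
    have h1 : {z} ∈ (𝒰.map y) := by
      rw [hz]
      exact Ultrafilter.mem_pure.2 rfl
    exact h1
  have hNN := fun n μ => FF_le θ hN n μ
  have hlim : ∀ μ, ∃ x, Tendsto (fun n => FF θ n μ) 𝒰 (𝓝 x) := by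
    intro μ
    obtain ⟨x, -, hx⟩ := (isCompact_Icc (a := -N) (b := N)).ultrafilter_le_nhds
      (𝒰.map fun n => FF θ n μ) (by
        rw [le_principal_iff, Ultrafilter.coe_map, mem_map]
        exact Eventually.of_forall fun n => ⟨(abs_le.1 (hNN n μ)).1, (abs_le.1 (hNN n μ)).2⟩)
    exact ⟨x, hx⟩
  choose f hf using hlim
  have hfN : ∀ μ, |f μ| ≤ N := fun μ =>
    le_of_tendsto (hf μ).abs (Eventually.of_forall fun n => hNN n μ)
  have hIsL := limit_IsL θ hcl hm' hys 𝒰 h𝒰 hf
  have hst := stable hIsL hfN (val_ct z)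
  have hev : ∀ᶠ n in (𝒰 : Filter ℕ), 1 ≤ |FF θ n z.cycleType -
      if Even (z.cycleType.sum + Multiset.card z.cycleType) then FF θ n 0
        else FF θ n (2 ::ₘ 0)| := by
    filter_upwards [hz'] with n hn
    have h1 : z.cycleType = (g n).cycleType := by rw [← hn, hy]
    have h2 := hg2 n
    rw [h1, FF_ct θ hcl]
    have h3 : FF θ n 0 = θ n 1 := by
      rw [← FF_ct θ hcl n 1, cycleType_one]
    have h4 : FF θ n (2 ::ₘ 0) = θ n (t n) := by
      rw [← FF_ct θ hcl n (t n), ht1]
      rfl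
    rw [h3, h4]
    exact h2
  have hlim2 : Tendsto (fun n => |FF θ n z.cycleType -
      if Even (z.cycleType.sum + Multiset.card z.cycleType) then FF θ n 0
        else FF θ n (2 ::ₘ 0)|) 𝒰 (𝓝 0) := by
    by_cases he : Even (z.cycleType.sum + Multiset.card z.cycleType)
    · simp only [if_pos he]
      rw [if_pos he] at hst
      have h1 := ((hf z.cycleType).sub (hf 0)).abs
      rw [hst, sub_self, abs_zero] at h1
      exact h1
    · simp only [if_neg he]
      rw [if_neg he] at hst
      have h1 := ((hf z.cycleType).sub (hf (2 ::ₘ 0))).abs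
      rw [hst, sub_self, abs_zero] at h1
      exact h1
  have h0 := ge_of_tendsto hlim2 hev
  linarith

/-- **Bounded class functions on large symmetric groups.** -/
theorem big (N : ℝ) : ∃ n₀ : ℕ, ∀ (X : Type) [Fintype X] [DecidableEq X], n₀ ≤ Fintype.card X →
    ∀ θ : Perm X → ℝ, (∀ g u, θ (u * g * u⁻¹) = θ g) → YS θ → (∀ g, |θ g| ≤ N) → Lin θ := by
  classical
  obtain ⟨n₀, h⟩ := big_fin N
  refine ⟨n₀, fun X _ _ hX θ hcl hys hN => ?_⟩
  let e : Fin (Fintype.card X) ≃ X := (Fintype.equivFin X).symm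
  have hvia : ∀ g : Perm X, viaEmbeddingHom e.toEmbedding (e.symm.permCongr g) = g := by
    intro g
    ext x
    obtain ⟨i, rfl⟩ := e.surjective x
    change viaEmbeddingHom e.toEmbedding (e.symm.permCongr g) (e.toEmbedding i) = _
    rw [viaEmbeddingHom_apply, viaEmbedding_apply]
    simp
  obtain ⟨a, b, hab⟩ := h (Fintype.card X) hX (fun y => θ (viaEmbeddingHom e.toEmbedding y))
    (fun g u => by rw [map_mul, map_mul, map_inv, hcl]) (hys.via e.toEmbedding) (fun g => hN _)
  refine ⟨a, b, fun g => ?_⟩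
  have h1 : θ (viaEmbeddingHom e.toEmbedding (e.symm.permCongr g)) =
    a + b * ((sign (e.symm.permCongr g) : ℤ) : ℝ) := hab (e.symm.permCongr g)
  rw [hvia] at h1
  rw [h1, Perm.sign_permCongr]

end Pool.Agent.W353.SN
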