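import Pool.Agent.H26.Lib.R_seed8.W353.SN.Step

/-! Class functions on symmetric groups with integral mean values: small permutations. -/

set_option autoImplicit false
set_option linter.unusedSectionVars false

namespace Pool.Agent.W353.SN

open Equiv Equiv.Perm

/-! ### subgroups of the symmetric group on four letters -/

/-- transposition -/
def pt : Perm (Fin 4) := swap 0 1
/-- double transposition -/
def pz : Perm (Fin 4) := swap 0 1 * swap 2 3
/-- three-cycle -/
def pc : Perm (Fin 4) := swap 0 1 * swap 1 2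
/-- four-cycle -/
def pq : Perm (Fin 4) := swap 0 1 * swap 1 2 * swap 2 3

def gI : Finset (Perm (Fin 4)) := {1}
def gT : Finset (Perm (Fin 4)) := {1, pt}
def gZ : Finset (Perm (Fin 4)) := {1, pz}
def gK : Finset (Perm (Fin 4)) := {1, pt, swap 2 3, pz}
def gV : Finset (Perm (Fin 4)) := {1, pz, swap 0 2 * swap 1 3, swap 0 3 * swap 1 2}
def gC : Finset (Perm (Fin 4)) := {1, pc, pc * pc}
def gS : Finset (Perm (Fin 4)) := {1, pt, swap 1 2, swap 0 2, pc, pc * pc}
def gQ : Finset (Perm (Fin 4)) := {1, swap 0 2 * swap 1 3, pq, pq * pq * pq}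
def gD : Finset (Perm (Fin 4)) :=
  {1, swap 0 2 * swap 1 3, pz, swap 0 3 * swap 1 2, swap 0 2, swap 1 3, pq, pq * pq * pq}

/-- the whole group -/
def gA : Finset (Perm (Fin 4)) := Finset.univ

section
variable (F : Perm (Fin 4) → ℝ) (hF : ∀ g u, F (u * g * u⁻¹) = F g)

theorem sumI : ∑ a ∈ gI, F a = F 1 := by
  unfold gI
  rw [Finset.sum_singleton]

theorem sumT : ∑ a ∈ gT, F a = F 1 + F pt := by
  unfold gT
  rw [Finset.sum_insert (by decide), Finset.sum_singleton]

theorem sumZ : ∑ a ∈ gZ, F a = F 1 + F pz := by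
  unfold gZ
  rw [Finset.sum_insert (by decide), Finset.sum_singleton]

include hF in
theorem conjF {a b : Perm (Fin 4)} (u : Perm (Fin 4)) (h : u * b * u⁻¹ = a) : F a = F b := by
  rw [← h, hF]

include hF in
theorem sumK : ∑ a ∈ gK, F a = F 1 + 2 * F pt + F pz := by
  unfold gK
  rw [Finset.sum_insert (by decide), Finset.sum_insert (by decide), Finset.sum_insert (by decide),
    Finset.sum_singleton, conjF F hF (a := swap 2 3) (b := pt) (swap 0 2 * swap 1 3) (by decide)]
  ring

include hF in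
theorem sumV : ∑ a ∈ gV, F a = F 1 + 3 * F pz := by
  unfold gV
  rw [Finset.sum_insert (by decide), Finset.sum_insert (by decide), Finset.sum_insert (by decide),
    Finset.sum_singleton,
    conjF F hF (a := swap 0 2 * swap 1 3) (b := pz) (swap 1 2) (by decide),
    conjF F hF (a := swap 0 3 * swap 1 2) (b := pz) (swap 1 3) (by decide)]
  ring

include hF in
theorem sumC : ∑ a ∈ gC, F a = F 1 + 2 * F pc := by
  unfold gC
  rw [Finset.sum_insert (by decide), Finset.sum_insert (by decide), Finset.sum_singleton,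
    conjF F hF (a := pc * pc) (b := pc) (swap 0 1) (by decide)]
  ring

include hF in
theorem sumS : ∑ a ∈ gS, F a = F 1 + 3 * F pt + 2 * F pc := by
  unfold gS
  rw [Finset.sum_insert (by decide), Finset.sum_insert (by decide), Finset.sum_insert (by decide),
    Finset.sum_insert (by decide), Finset.sum_insert (by decide), Finset.sum_singleton,
    conjF F hF (a := pc * pc) (b := pc) (swap 0 1) (by decide),
    conjF F hF (a := swap 1 2) (b := pt) (swap 0 2) (by decide),
    conjF F hF (a := swap 0 2) (b := pt) (swap 1 2) (by decide)]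
  ring

include hF in
theorem sumQ : ∑ a ∈ gQ, F a = F 1 + F pz + 2 * F pq := by
  unfold gQ
  rw [Finset.sum_insert (by decide), Finset.sum_insert (by decide), Finset.sum_insert (by decide),
    Finset.sum_singleton,
    conjF F hF (a := swap 0 2 * swap 1 3) (b := pz) (swap 1 2) (by decide),
    conjF F hF (a := pq * pq * pq) (b := pq) (swap 0 2) (by decide)]
  ring

include hF in
theorem sumD : ∑ a ∈ gD, F a = F 1 + 3 * F pz + 2 * F pt + 2 * F pq := by
  unfold gD
  rw [Finset.sum_insert (by decide), Finset.sum_insert (by decide), Finset.sum_insert (by decide),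
    Finset.sum_insert (by decide), Finset.sum_insert (by decide), Finset.sum_insert (by decide),
    Finset.sum_insert (by decide), Finset.sum_singleton,
    conjF F hF (a := swap 0 2 * swap 1 3) (b := pz) (swap 1 2) (by decide),
    conjF F hF (a := swap 0 3 * swap 1 2) (b := pz) (swap 1 3) (by decide),
    conjF F hF (a := pq * pq * pq) (b := pq) (swap 0 2) (by decide),
    conjF F hF (a := swap 0 2) (b := pt) (swap 1 2) (by decide),
    conjF F hF (a := swap 1 3) (b := pt) (swap 0 3) (by decide)]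
  ring

/-- representatives of the conjugacy classes -/
def rep4 (a : Perm (Fin 4)) : Perm (Fin 4) :=
  if a = 1 then 1 else if a * a = 1 then (if ∃ x, a x = x then pt else pz) else
    (if ∃ x, a x = x then pc else pq)

theorem rep4_conj : ∀ a : Perm (Fin 4), ∃ u : Perm (Fin 4), u * rep4 a * u⁻¹ = a := by
  decide

include hF in
theorem sumA : ∑ a ∈ gA, F a = F 1 + 6 * F pt + 3 * F pz + 8 * F pc + 6 * F pq := by
  have h1 : ∑ a ∈ gA, F a = ∑ a ∈ gA, F (rep4 a) := by
    refine Finset.sum_congr rfl fun a _ => ?_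
    obtain ⟨u, hu⟩ := rep4_conj a
    exact conjF F hF u hu
  have h2 : gA.image rep4 = {1, pt, pz, pc, pq} := by decide
  have c1 : (gA.filter fun a => rep4 a = 1).card = 1 := by decide
  have c2 : (gA.filter fun a => rep4 a = pt).card = 6 := by decide
  have c3 : (gA.filter fun a => rep4 a = pz).card = 3 := by decide
  have c4 : (gA.filter fun a => rep4 a = pc).card = 8 := by decide
  have c5 : (gA.filter fun a => rep4 a = pq).card = 6 := by decide
  rw [h1, Finset.sum_comp F rep4, h2, Finset.sum_insert (by decide), Finset.sum_insert (by decide),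
    Finset.sum_insert (by decide), Finset.sum_insert (by decide), Finset.sum_singleton, c1, c2, c3,
    c4, c5]
  simp only [nsmul_eq_mul]
  push_cast
  ring

end

/-- the Young subgroups -/
def yS : Fin 5 → Finset (Perm (Fin 4)) := ![gI, gT, gK, gS, gA]

/-- the mean values over the Young subgroups -/
noncomputable def yE (y : Fin 5) (F : Perm (Fin 4) → ℝ) : ℝ :=
  (∑ a ∈ yS y, F a) / (yS y).card

theorem yE0 (F : Perm (Fin 4) → ℝ) : yE 0 F = F 1 := by
  have h : (yS 0).card = 1 := by decide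
  unfold yE
  rw [h]
  change (∑ a ∈ gI, F a) / _ = _
  rw [sumI F]
  norm_num

theorem yE1 (F : Perm (Fin 4) → ℝ) :
    yE 1 F = (F 1 + F pt) / 2 := by
  have h : (yS 1).card = 2 := by decide
  unfold yE
  rw [h]
  change (∑ a ∈ gT, F a) / _ = _
  rw [sumT F]
  norm_num

theorem yE2 (F : Perm (Fin 4) → ℝ) (hF : ∀ g u, F (u * g * u⁻¹) = F g) :
    yE 2 F = (F 1 + 2 * F pt + F pz) / 4 := by
  have h : (yS 2).card = 4 := by decide
  unfold yE
  rw [h]
  change (∑ a ∈ gK, F a) / _ = _
  rw [sumK F hF]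
  norm_num

theorem yE3 (F : Perm (Fin 4) → ℝ) (hF : ∀ g u, F (u * g * u⁻¹) = F g) :
    yE 3 F = (F 1 + 3 * F pt + 2 * F pc) / 6 := by
  have h : (yS 3).card = 6 := by decide
  unfold yE
  rw [h]
  change (∑ a ∈ gS, F a) / _ = _
  rw [sumS F hF]
  norm_num

theorem yE4 (F : Perm (Fin 4) → ℝ) (hF : ∀ g u, F (u * g * u⁻¹) = F g) :
    yE 4 F = (F 1 + 6 * F pt + 3 * F pz + 8 * F pc + 6 * F pq) / 24 := by
  have h : (yS 4).card = 24 := by decide
  unfold yE
  rw [h]
  change (∑ a ∈ gA, F a) / _ = _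
  rw [sumA F hF]
  norm_num

/-- the mean value over `L` is an integral combination of the mean values over the Young
subgroups -/
def Comb (L : Finset (Perm (Fin 4))) : Prop :=
  ∃ c : Fin 5 → ℤ, ∀ F : Perm (Fin 4) → ℝ, (∀ g u, F (u * g * u⁻¹) = F g) →
    ∑ a ∈ L, F a = L.card * ∑ y, c y * yE y F

theorem comb_mk {L : Finset (Perm (Fin 4))} (c : Fin 5 → ℤ) (n : ℕ) (hn : L.card = n)
    (h : ∀ F : Perm (Fin 4) → ℝ, (∀ g u, F (u * g * u⁻¹) = F g) →
      ∑ a ∈ L, F a = n * (c 0 * F 1 + c 1 * ((F 1 + F pt) / 2) +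
        c 2 * ((F 1 + 2 * F pt + F pz) / 4) + c 3 * ((F 1 + 3 * F pt + 2 * F pc) / 6) +
        c 4 * ((F 1 + 6 * F pt + 3 * F pz + 8 * F pc + 6 * F pq) / 24))) : Comb L := by
  refine ⟨c, fun F hF => ?_⟩
  rw [hn, h F hF, Fin.sum_univ_five, yE0 F, yE1 F, yE2 F hF, yE3 F hF, yE4 F hF]

theorem cbI : Comb gI := comb_mk ![1, 0, 0, 0, 0] 1 (by decide) fun F hF => by
  rw [sumI F]; simp
theorem cbT : Comb gT := comb_mk ![0, 1, 0, 0, 0] 2 (by decide) fun F hF => by
  rw [sumT F]; simp; ring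
theorem cbK : Comb gK := comb_mk ![0, 0, 1, 0, 0] 4 (by decide) fun F hF => by
  rw [sumK F hF]; simp; ring
theorem cbS : Comb gS := comb_mk ![0, 0, 0, 1, 0] 6 (by decide) fun F hF => by
  rw [sumS F hF]; simp; ring
theorem cbZ : Comb gZ := comb_mk ![1, -2, 2, 0, 0] 2 (by decide) fun F hF => by
  rw [sumZ F]; simp; ring
theorem cbV : Comb gV := comb_mk ![1, -3, 3, 0, 0] 4 (by decide) fun F hF => by
  rw [sumV F hF]; simp; ring
theorem cbC : Comb gC := comb_mk ![1, -2, 0, 2, 0] 3 (by decide) fun F hF => by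
  rw [sumC F hF]; simp; ring
theorem cbQ : Comb gQ := comb_mk ![0, 1, 0, -2, 2] 4 (by decide) fun F hF => by
  rw [sumQ F hF]; simp; ring
theorem cbD : Comb gD := comb_mk ![0, 0, 1, -1, 1] 8 (by decide) fun F hF => by
  rw [sumD F hF]; simp; ring

/-- integral mean values over the products of Young subgroups -/
def YInt (Θ : Perm (Fin 4) × Perm (Fin 4) → ℝ) : Prop :=
  ∀ y y' : Fin 5, ∃ m : ℤ, ∑ a ∈ yS y, ∑ b ∈ yS y', Θ (a, b) =
    m * ((yS y).card * (yS y').card : ℕ)

theorem yS_card_pos (y : Fin 5) : 0 < (yS y).card := by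
  revert y
  decide

theorem int_prod {Θ : Perm (Fin 4) × Perm (Fin 4) → ℝ}
    (hc1 : ∀ a b u, Θ (u * a * u⁻¹, b) = Θ (a, b)) (hc2 : ∀ a b u, Θ (a, u * b * u⁻¹) = Θ (a, b))
    (h : YInt Θ) {L L' : Finset (Perm (Fin 4))} (hL : Comb L) (hL' : Comb L') :
    ∃ m : ℤ, ∑ a ∈ L, ∑ b ∈ L', Θ (a, b) = m * (L.card * L'.card : ℕ) := by
  classical
  obtain ⟨c, hc⟩ := hL
  obtain ⟨c', hc'⟩ := hL'
  choose N hN using h
  have hcls : ∀ y' : Fin 5, ∀ g u : Perm (Fin 4), yE y' (fun b => Θ (u * g * u⁻¹, b)) =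
      yE y' (fun b => Θ (g, b)) := by
    intro y' g u
    unfold yE
    congr 1
    exact Finset.sum_congr rfl fun b _ => hc1 g b u
  have hNN : ∀ y y' : Fin 5, yE y (fun a => yE y' (fun b => Θ (a, b))) = N y y' := by
    intro y y'
    have h1 : ((yS y).card : ℝ) ≠ 0 := by exact_mod_cast (yS_card_pos y).ne'
    have h2 : ((yS y').card : ℝ) ≠ 0 := by exact_mod_cast (yS_card_pos y').ne'
    unfold yE
    rw [← Finset.sum_div, hN]
    push_cast
    field_simp
  refine ⟨∑ y', ∑ y, c' y' * c y * N y y', ?_⟩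
  have e1 : ∀ a ∈ L, ∑ b ∈ L', Θ (a, b) =
      L'.card * ∑ y', c' y' * yE y' (fun b => Θ (a, b)) := fun a _ =>
    hc' (fun b => Θ (a, b)) fun g u => hc2 a g u
  rw [Finset.sum_congr rfl e1, ← Finset.mul_sum, Finset.sum_comm]
  have e2 : ∀ y' ∈ (Finset.univ : Finset (Fin 5)), ∑ a ∈ L, (c' y' : ℝ) * yE y' (fun b => Θ (a, b)) =
      L.card * ∑ y, c' y' * c y * N y y' := by
    intro y' _
    rw [← Finset.mul_sum, hc (fun a => yE y' (fun b => Θ (a, b))) (fun g u => hcls y' g u),
      Finset.mul_sum, Finset.mul_sum]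
    push_cast
    rw [Finset.mul_sum]
    refine Finset.sum_congr rfl fun y _ => ?_
    rw [hNN]
    ring
  rw [Finset.sum_congr rfl e2, ← Finset.mul_sum]
  push_cast
  ring

end Pool.Agent.W353.SN
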