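import Pool.Agent.H26.Lib.R_seed8.W353.SN.Base

/-! Class functions on symmetric groups with integral mean values: values on small permutations. -/

set_option autoImplicit false
set_option linter.unusedSectionVars false

namespace Pool.Agent.W353.SN

open Equiv Equiv.Perm

section
variable (Θ : Perm (Fin 4) × Perm (Fin 4) → ℝ)
  (hc1 : ∀ a b u, Θ (u * a * u⁻¹, b) = Θ (a, b)) (hc2 : ∀ a b u, Θ (a, u * b * u⁻¹) = Θ (a, b))
  (hs : ∀ a b, Θ (a, b) = Θ (b, a)) (htt : Θ (pt, pt) = Θ (pz, 1))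
  (hint : YInt Θ)

include hc1 hc2 hint in
theorem eqII : ∃ m : ℤ, Θ (1, 1) = m * 1 := by
  obtain ⟨m, hm⟩ := int_prod hc1 hc2 hint cbI cbI
  refine ⟨m, ?_⟩
  have hc : gI.card * gI.card = 1 := by decide
  rw [hc, Finset.sum_congr rfl fun a _ => sumI (fun b => Θ (a, b)),
    sumI (fun a => Θ (a, 1))] at hm
  push_cast at hm
  exact hm

include hc1 hc2 hint in
theorem eqTI : ∃ m : ℤ, Θ (1, 1) + Θ (pt, 1) = m * 2 := by
  obtain ⟨m, hm⟩ := int_prod hc1 hc2 hint cbT cbI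
  refine ⟨m, ?_⟩
  have hc : gT.card * gI.card = 2 := by decide
  rw [hc, Finset.sum_congr rfl fun a _ => sumI (fun b => Θ (a, b)),
    sumT (fun a => Θ (a, 1))] at hm
  push_cast at hm
  exact hm

include hc1 hc2 hint in
theorem eqZI : ∃ m : ℤ, Θ (1, 1) + Θ (pz, 1) = m * 2 := by
  obtain ⟨m, hm⟩ := int_prod hc1 hc2 hint cbZ cbI
  refine ⟨m, ?_⟩
  have hc : gZ.card * gI.card = 2 := by decide
  rw [hc, Finset.sum_congr rfl fun a _ => sumI (fun b => Θ (a, b)),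
    sumZ (fun a => Θ (a, 1))] at hm
  push_cast at hm
  exact hm

include hc1 hc2 hint in
theorem eqVI : ∃ m : ℤ, Θ (1, 1) + 3 * Θ (pz, 1) = m * 4 := by
  obtain ⟨m, hm⟩ := int_prod hc1 hc2 hint cbV cbI
  refine ⟨m, ?_⟩
  have hc : gV.card * gI.card = 4 := by decide
  rw [hc, Finset.sum_congr rfl fun a _ => sumI (fun b => Θ (a, b)),
    sumV (fun a => Θ (a, 1)) (fun g u => by simp only [hc1])] at hm
  push_cast at hm
  exact hm

include hc1 hc2 hint in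
theorem eqVV : ∃ m : ℤ, (Θ (1, 1) + 3 * Θ (1, pz)) + 3 * (Θ (pz, 1) + 3 * Θ (pz, pz)) = m * 16 := by
  obtain ⟨m, hm⟩ := int_prod hc1 hc2 hint cbV cbV
  refine ⟨m, ?_⟩
  have hc : gV.card * gV.card = 16 := by decide
  rw [hc, Finset.sum_congr rfl fun a _ => sumV (fun b => Θ (a, b)) (fun g u => hc2 a g u),
    sumV (fun a => (Θ (a, 1) + 3 * Θ (a, pz))) (fun g u => by simp only [hc1])] at hm
  push_cast at hm
  exact hm

include hc1 hc2 hint in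
theorem eqZZ : ∃ m : ℤ, (Θ (1, 1) + Θ (1, pz)) + (Θ (pz, 1) + Θ (pz, pz)) = m * 4 := by
  obtain ⟨m, hm⟩ := int_prod hc1 hc2 hint cbZ cbZ
  refine ⟨m, ?_⟩
  have hc : gZ.card * gZ.card = 4 := by decide
  rw [hc, Finset.sum_congr rfl fun a _ => sumZ (fun b => Θ (a, b)),
    sumZ (fun a => (Θ (a, 1) + Θ (a, pz)))] at hm
  push_cast at hm
  exact hm

include hc1 hc2 hint in
theorem eqKT : ∃ m : ℤ, (Θ (1, 1) + Θ (1, pt)) + 2 * (Θ (pt, 1) + Θ (pt, pt)) + (Θ (pz, 1) + Θ (pz, pt)) = m * 8 := by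
  obtain ⟨m, hm⟩ := int_prod hc1 hc2 hint cbK cbT
  refine ⟨m, ?_⟩
  have hc : gK.card * gT.card = 8 := by decide
  rw [hc, Finset.sum_congr rfl fun a _ => sumT (fun b => Θ (a, b)),
    sumK (fun a => (Θ (a, 1) + Θ (a, pt))) (fun g u => by simp only [hc1])] at hm
  push_cast at hm
  exact hm

include hc1 hc2 hint in
theorem eqQI : ∃ m : ℤ, Θ (1, 1) + Θ (pz, 1) + 2 * Θ (pq, 1) = m * 4 := by
  obtain ⟨m, hm⟩ := int_prod hc1 hc2 hint cbQ cbI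
  refine ⟨m, ?_⟩
  have hc : gQ.card * gI.card = 4 := by decide
  rw [hc, Finset.sum_congr rfl fun a _ => sumI (fun b => Θ (a, b)),
    sumQ (fun a => Θ (a, 1)) (fun g u => by simp only [hc1])] at hm
  push_cast at hm
  exact hm

include hc1 hc2 hint in
theorem eqDI : ∃ m : ℤ, Θ (1, 1) + 3 * Θ (pz, 1) + 2 * Θ (pt, 1) + 2 * Θ (pq, 1) = m * 8 := by
  obtain ⟨m, hm⟩ := int_prod hc1 hc2 hint cbD cbI
  refine ⟨m, ?_⟩
  have hc : gD.card * gI.card = 8 := by decide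
  rw [hc, Finset.sum_congr rfl fun a _ => sumI (fun b => Θ (a, b)),
    sumD (fun a => Θ (a, 1)) (fun g u => by simp only [hc1])] at hm
  push_cast at hm
  exact hm

include hc1 hc2 hint in
theorem eqQT : ∃ m : ℤ, (Θ (1, 1) + Θ (1, pt)) + (Θ (pz, 1) + Θ (pz, pt)) + 2 * (Θ (pq, 1) + Θ (pq, pt)) = m * 8 := by
  obtain ⟨m, hm⟩ := int_prod hc1 hc2 hint cbQ cbT
  refine ⟨m, ?_⟩
  have hc : gQ.card * gT.card = 8 := by decide
  rw [hc, Finset.sum_congr rfl fun a _ => sumT (fun b => Θ (a, b)),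
    sumQ (fun a => (Θ (a, 1) + Θ (a, pt))) (fun g u => by simp only [hc1])] at hm
  push_cast at hm
  exact hm

include hc1 hc2 hint in
theorem eqDT : ∃ m : ℤ, (Θ (1, 1) + Θ (1, pt)) + 3 * (Θ (pz, 1) + Θ (pz, pt)) + 2 * (Θ (pt, 1) + Θ (pt, pt)) + 2 * (Θ (pq, 1) + Θ (pq, pt)) = m * 16 := by
  obtain ⟨m, hm⟩ := int_prod hc1 hc2 hint cbD cbT
  refine ⟨m, ?_⟩
  have hc : gD.card * gT.card = 16 := by decide
  rw [hc, Finset.sum_congr rfl fun a _ => sumT (fun b => Θ (a, b)),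
    sumD (fun a => (Θ (a, 1) + Θ (a, pt))) (fun g u => by simp only [hc1])] at hm
  push_cast at hm
  exact hm

include hc1 hc2 hint in
theorem eqQZ : ∃ m : ℤ, (Θ (1, 1) + Θ (1, pz)) + (Θ (pz, 1) + Θ (pz, pz)) + 2 * (Θ (pq, 1) + Θ (pq, pz)) = m * 8 := by
  obtain ⟨m, hm⟩ := int_prod hc1 hc2 hint cbQ cbZ
  refine ⟨m, ?_⟩
  have hc : gQ.card * gZ.card = 8 := by decide
  rw [hc, Finset.sum_congr rfl fun a _ => sumZ (fun b => Θ (a, b)),
    sumQ (fun a => (Θ (a, 1) + Θ (a, pz))) (fun g u => by simp only [hc1])] at hm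
  push_cast at hm
  exact hm

include hc1 hc2 hint in
theorem eqDV : ∃ m : ℤ, (Θ (1, 1) + 3 * Θ (1, pz)) + 3 * (Θ (pz, 1) + 3 * Θ (pz, pz)) + 2 * (Θ (pt, 1) + 3 * Θ (pt, pz)) + 2 * (Θ (pq, 1) + 3 * Θ (pq, pz)) = m * 32 := by
  obtain ⟨m, hm⟩ := int_prod hc1 hc2 hint cbD cbV
  refine ⟨m, ?_⟩
  have hc : gD.card * gV.card = 32 := by decide
  rw [hc, Finset.sum_congr rfl fun a _ => sumV (fun b => Θ (a, b)) (fun g u => hc2 a g u),
    sumD (fun a => (Θ (a, 1) + 3 * Θ (a, pz))) (fun g u => by simp only [hc1])] at hm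
  push_cast at hm
  exact hm

include hc1 hc2 hint in
theorem eqQQ : ∃ m : ℤ, (Θ (1, 1) + Θ (1, pz) + 2 * Θ (1, pq)) + (Θ (pz, 1) + Θ (pz, pz) + 2 * Θ (pz, pq)) + 2 * (Θ (pq, 1) + Θ (pq, pz) + 2 * Θ (pq, pq)) = m * 16 := by
  obtain ⟨m, hm⟩ := int_prod hc1 hc2 hint cbQ cbQ
  refine ⟨m, ?_⟩
  have hc : gQ.card * gQ.card = 16 := by decide
  rw [hc, Finset.sum_congr rfl fun a _ => sumQ (fun b => Θ (a, b)) (fun g u => hc2 a g u),
    sumQ (fun a => (Θ (a, 1) + Θ (a, pz) + 2 * Θ (a, pq))) (fun g u => by simp only [hc1])] at hm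
  push_cast at hm
  exact hm

include hc1 hc2 hint in
theorem eqDD : ∃ m : ℤ, (Θ (1, 1) + 3 * Θ (1, pz) + 2 * Θ (1, pt) + 2 * Θ (1, pq)) + 3 * (Θ (pz, 1) + 3 * Θ (pz, pz) + 2 * Θ (pz, pt) + 2 * Θ (pz, pq)) + 2 * (Θ (pt, 1) + 3 * Θ (pt, pz) + 2 * Θ (pt, pt) + 2 * Θ (pt, pq)) + 2 * (Θ (pq, 1) + 3 * Θ (pq, pz) + 2 * Θ (pq, pt) + 2 * Θ (pq, pq)) = m * 64 := by
  obtain ⟨m, hm⟩ := int_prod hc1 hc2 hint cbD cbD
  refine ⟨m, ?_⟩
  have hc : gD.card * gD.card = 64 := by decide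
  rw [hc, Finset.sum_congr rfl fun a _ => sumD (fun b => Θ (a, b)) (fun g u => hc2 a g u),
    sumD (fun a => (Θ (a, 1) + 3 * Θ (a, pz) + 2 * Θ (a, pt) + 2 * Θ (a, pq))) (fun g u => by simp only [hc1])] at hm
  push_cast at hm
  exact hm

include hc1 hc2 hint in
theorem eqSI : ∃ m : ℤ, Θ (1, 1) + 3 * Θ (pt, 1) + 2 * Θ (pc, 1) = m * 6 := by
  obtain ⟨m, hm⟩ := int_prod hc1 hc2 hint cbS cbI
  refine ⟨m, ?_⟩
  have hc : gS.card * gI.card = 6 := by decide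
  rw [hc, Finset.sum_congr rfl fun a _ => sumI (fun b => Θ (a, b)),
    sumS (fun a => Θ (a, 1)) (fun g u => by simp only [hc1])] at hm
  push_cast at hm
  exact hm

include hc1 hc2 hint in
theorem eqST : ∃ m : ℤ, (Θ (1, 1) + Θ (1, pt)) + 3 * (Θ (pt, 1) + Θ (pt, pt)) + 2 * (Θ (pc, 1) + Θ (pc, pt)) = m * 12 := by
  obtain ⟨m, hm⟩ := int_prod hc1 hc2 hint cbS cbT
  refine ⟨m, ?_⟩
  have hc : gS.card * gT.card = 12 := by decide
  rw [hc, Finset.sum_congr rfl fun a _ => sumT (fun b => Θ (a, b)),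
    sumS (fun a => (Θ (a, 1) + Θ (a, pt))) (fun g u => by simp only [hc1])] at hm
  push_cast at hm
  exact hm

include hc1 hc2 hint in
theorem eqSS : ∃ m : ℤ, (Θ (1, 1) + 3 * Θ (1, pt) + 2 * Θ (1, pc)) + 3 * (Θ (pt, 1) + 3 * Θ (pt, pt) + 2 * Θ (pt, pc)) + 2 * (Θ (pc, 1) + 3 * Θ (pc, pt) + 2 * Θ (pc, pc)) = m * 36 := by
  obtain ⟨m, hm⟩ := int_prod hc1 hc2 hint cbS cbS
  refine ⟨m, ?_⟩
  have hc : gS.card * gS.card = 36 := by decide
  rw [hc, Finset.sum_congr rfl fun a _ => sumS (fun b => Θ (a, b)) (fun g u => hc2 a g u),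
    sumS (fun a => (Θ (a, 1) + 3 * Θ (a, pt) + 2 * Θ (a, pc))) (fun g u => by simp only [hc1])] at hm
  push_cast at hm
  exact hm

include hc1 hc2 hint in
theorem eqCC : ∃ m : ℤ, (Θ (1, 1) + 2 * Θ (1, pc)) + 2 * (Θ (pc, 1) + 2 * Θ (pc, pc)) = m * 9 := by
  obtain ⟨m, hm⟩ := int_prod hc1 hc2 hint cbC cbC
  refine ⟨m, ?_⟩
  have hc : gC.card * gC.card = 9 := by decide
  rw [hc, Finset.sum_congr rfl fun a _ => sumC (fun b => Θ (a, b)) (fun g u => hc2 a g u),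
    sumC (fun a => (Θ (a, 1) + 2 * Θ (a, pc))) (fun g u => by simp only [hc1])] at hm
  push_cast at hm
  exact hm

end

end Pool.Agent.W353.SN
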