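import Mathlib

/-! Class functions on symmetric groups with integral mean values on subgroups: the step. -/

set_option autoImplicit false
set_option linter.unusedSectionVars false

namespace Pool.Agent.W353.SN

open Equiv Equiv.Perm

section
variable {X : Type*} [Finite X]

/-- the length of the orbits determines when two powers agree -/
theorem zpow_eq_iff {g h : Perm X} (hs : ∀ x y, g.SameCycle x y ↔ h.SameCycle x y) (x : X)
    (a b : ℤ) : (g ^ a) x = (g ^ b) x ↔ (h ^ a) x = (h ^ b) x := by
  classical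
  let _ : Fintype X := Fintype.ofFinite X
  set s : Finset X := Finset.univ.filter fun y => g.SameCycle x y with hsdef
  have hx : x ∈ s := by
    rw [hsdef, Finset.mem_filter]
    exact ⟨Finset.mem_univ _, SameCycle.rfl⟩
  have key : ∀ f : Perm X, (∀ y, g.SameCycle x y ↔ f.SameCycle x y) →
      f.IsCycleOn (s : Set X) := by
    intro f hf
    have hm : ∀ y, y ∈ (s : Set X) ↔ f.SameCycle x y := by
      intro y
      rw [Finset.mem_coe, hsdef, Finset.mem_filter]
      exact ⟨fun h => (hf y).1 h.2, fun h => ⟨Finset.mem_univ _, (hf y).2 h⟩⟩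
    refine ⟨⟨fun y hy => ?_, f.injective.injOn, fun y hy => ?_⟩, fun y hy z hz => ?_⟩
    · rw [hm] at hy ⊢
      exact sameCycle_apply_right.2 hy
    · rw [hm] at hy
      refine ⟨f⁻¹ y, ?_, f.apply_symm_apply y⟩
      rw [hm]
      exact sameCycle_symm_apply_right.2 hy
    · rw [hm] at hy hz
      exact hy.symm.trans hz
  rw [(key g fun y => Iff.rfl).zpow_apply_eq_zpow_apply hx,
    (key h fun y => hs x y).zpow_apply_eq_zpow_apply hx]

/-- two permutations with the same orbits are conjugate by a permutation preserving the orbits -/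
theorem conj_of_same {g h : Perm X} (hs : ∀ x y, g.SameCycle x y ↔ h.SameCycle x y) :
    ∃ u : Perm X, (∀ x, g.SameCycle x (u x)) ∧ u * g * u⁻¹ = h := by
  classical
  let r : X → X := fun x => (Quotient.mk (SameCycle.setoid g) x).out
  have hr : ∀ x, g.SameCycle (r x) x := fun x => Quotient.mk_out (s := SameCycle.setoid g) x
  have hrc : ∀ x y, g.SameCycle x y → r x = r y := by
    intro x y hxy
    change (Quotient.mk (SameCycle.setoid g) x).out = (Quotient.mk (SameCycle.setoid g) y).out
    rw [Quotient.sound (s := SameCycle.setoid g) hxy]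
  choose i hi using fun x => hr x
  let u0 : X → X := fun x => (h ^ (i x)) (r x)
  have hu1 : ∀ x, g.SameCycle x (u0 x) := by
    intro x
    refine (hr x).symm.trans ((hs _ _).2 ?_)
    exact ⟨i x, rfl⟩
  have hinj : Function.Injective u0 := by
    intro x y hxy
    have h1 : g.SameCycle x y := (hu1 x).trans (by rw [hxy]; exact (hu1 y).symm)
    have h2 := hrc x y h1
    change (h ^ (i x)) (r x) = (h ^ (i y)) (r y) at hxy
    rw [← h2, ← zpow_eq_iff hs] at hxy
    rw [hi] at hxy
    rw [h2, hi] at hxy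
    exact hxy
  let u : Perm X := Equiv.ofBijective u0 (Finite.injective_iff_bijective.1 hinj)
  refine ⟨u, hu1, ?_⟩
  rw [mul_inv_eq_iff_eq_mul]
  ext x
  rw [Perm.mul_apply, Perm.mul_apply]
  change (h ^ (i (g x))) (r (g x)) = h ((h ^ (i x)) (r x))
  have h1 : r (g x) = r x := hrc _ _ (sameCycle_apply_left.2 SameCycle.rfl)
  rw [h1, ← Perm.mul_apply, ← zpow_one_add, ← zpow_eq_iff hs]
  rw [← h1, hi, h1, zpow_one_add, Perm.mul_apply, hi]

/-- the number of orbits -/
noncomputable def cyc (g : Perm X) : ℕ := Nat.card (Quotient (SameCycle.setoid g))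

/-- the permutations preserving the orbits of `g` -/
def young (g : Perm X) : Subgroup (Perm X) where
  carrier := {h | ∀ x, g.SameCycle x (h x)}
  one_mem' x := SameCycle.rfl
  mul_mem' {a b} ha hb x := (hb x).trans (ha (b x))
  inv_mem' {a} ha x := by
    have h1 := ha (a⁻¹ x)
    have h2 : a (a⁻¹ x) = x := a.apply_symm_apply x
    rw [h2] at h1
    exact h1.symm

theorem mem_young {g h : Perm X} : h ∈ young g ↔ ∀ x, g.SameCycle x (h x) := Iff.rfl

theorem refine_young {g h : Perm X} (hh : h ∈ young g) {x y : X} (hxy : h.SameCycle x y) :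
    g.SameCycle x y := by
  obtain ⟨n, hn⟩ := hxy
  have h1 : h ^ n ∈ young g := (young g).zpow_mem hh n
  have h2 := h1 x
  rwa [hn] at h2

/-- permutations preserving the orbits of `g` have more orbits or the same orbits -/
theorem cyc_lt {g h : Perm X} (hh : h ∈ young g) (hne : ∃ x y, g.SameCycle x y ∧ ¬ h.SameCycle x y) :
    cyc g < cyc h := by
  classical
  let _ : Fintype X := Fintype.ofFinite X
  unfold cyc
  let φ : Quotient (SameCycle.setoid h) → Quotient (SameCycle.setoid g) :=
    Quotient.lift (fun x => Quotient.mk (SameCycle.setoid g) x) fun x y hxy =>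
      Quotient.sound (s := SameCycle.setoid g) (refine_young hh hxy)
  have hsurj : Function.Surjective φ := by
    intro q
    obtain ⟨x, rfl⟩ := Quotient.exists_rep q
    exact ⟨Quotient.mk _ x, rfl⟩
  have hninj : ¬ Function.Injective φ := by
    obtain ⟨x, y, h1, h2⟩ := hne
    intro hinj
    apply h2
    exact Quotient.exact (s := SameCycle.setoid h)
      (hinj (Quotient.sound (s := SameCycle.setoid g) h1 : φ (Quotient.mk _ x) = φ (Quotient.mk _ y)))
  have h3 : Nat.card (Quotient (SameCycle.setoid g)) ≤ Nat.card (Quotient (SameCycle.setoid h)) :=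
    Nat.card_le_card_of_surjective φ hsurj
  refine lt_of_le_of_ne h3 fun heq => hninj ?_
  have h4 := (Function.Surjective.bijective_of_nat_card_le hsurj heq.ge)
  exact h4.1

/-- integral mean values -/
def IntMean {G : Type*} [Group G] (θ : G → ℝ) : Prop :=
  ∀ H : Subgroup G, ∃ m : ℤ, ∑ᶠ h : H, θ h = m * Nat.card H

/-- integral mean values on the Young subgroups -/
def YMean (θ : Perm X → ℝ) : Prop :=
  ∀ g : Perm X, ∃ m : ℤ, ∑ᶠ h : young g, θ h = m * Nat.card (young g)

/-- **The step.** -/
theorem step {η : Perm X → ℝ} (hcl : ∀ g u, η (u * g * u⁻¹) = η g) {M : ℝ} (hM : ∀ g, |η g| ≤ M)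
    (g : Perm X) (hint : ∃ m : ℤ, ∑ᶠ h : young g, η h = m * Nat.card (young g))
    (S : Finset (Perm X)) (hS1 : ∀ s ∈ S, s ∈ young g)
    (hS2 : ∀ s ∈ S, s * g = g * s) (hS : M < S.card)
    (hz : ∀ h, cyc g < cyc h → η h = 0) : η g = 0 := by
  classical
  let _ : Fintype X := Fintype.ofFinite X
  set A : Finset (Perm X) := Finset.univ.filter fun h => ∀ x y, g.SameCycle x y ↔ h.SameCycle x y
    with hA
  have hAm : ∀ h, h ∈ A ↔ ∀ x y, g.SameCycle x y ↔ h.SameCycle x y := by
    intro h
    rw [hA, Finset.mem_filter]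
    exact ⟨fun h => h.2, fun h => ⟨Finset.mem_univ _, h⟩⟩
  have hAy : ∀ h ∈ A, h ∈ young g := by
    intro h hh x
    exact ((hAm h).1 hh x (h x)).2 (sameCycle_apply_right.2 SameCycle.rfl)
  have hgA : g ∈ A := (hAm g).2 fun x y => Iff.rfl
  have hu : ∀ h, ∃ u : Perm X, h ∈ A → (∀ x, g.SameCycle x (u x)) ∧ u * g * u⁻¹ = h := by
    intro h
    by_cases hh : h ∈ A
    · obtain ⟨u, hu⟩ := conj_of_same ((hAm h).1 hh)
      exact ⟨u, fun _ => hu⟩
    · exact ⟨1, fun h' => absurd h' hh⟩
  choose u hu using hu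
  -- the sum over the group
  set Y : Finset (Perm X) := Finset.univ.filter fun h => h ∈ young g with hY
  have hYc : Y.card = Nat.card (young g) := by
    rw [hY, Nat.card_eq_fintype_card, ← Fintype.card_subtype]
  have hcard : A.card * S.card ≤ Y.card := by
    rw [← Finset.card_product]
    refine Finset.card_le_card_of_injOn (fun x => u x.1 * x.2) ?_ ?_
    · rintro ⟨h, s⟩ hx
      rw [Finset.mem_coe, Finset.mem_product] at hx
      rw [Finset.mem_coe, hY, Finset.mem_filter]
      exact ⟨Finset.mem_univ _, (young g).mul_mem (hu h hx.1).1 (hS1 s hx.2)⟩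
    · rintro ⟨h, s⟩ hx ⟨h', s'⟩ hx' heq
      rw [Finset.mem_coe, Finset.mem_product] at hx hx'
      simp only at heq hx hx'
      have e1 : ∀ k ∈ A, ∀ t ∈ S, (u k * t) * g * (u k * t)⁻¹ = k := by
        intro k hk t ht
        rw [mul_inv_rev, mul_assoc (u k) t g, hS2 t ht]
        calc u k * (g * t) * (t⁻¹ * (u k)⁻¹) = u k * g * (u k)⁻¹ := by group
          _ = k := (hu k hk).2
      have h1 : h = h' := by rw [← e1 h hx.1 s hx.2, ← e1 h' hx'.1 s' hx'.2, heq]
      subst h1
      have h2 : s = s' := mul_left_cancel heq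
      rw [h2]
  have hsum : ∑ᶠ h : young g, η h = A.card * η g := by
    rw [finsum_eq_sum_of_fintype]
    have e1 : ∑ h : young g, η h = ∑ h ∈ Y, η h := by
      rw [hY]
      exact (Finset.sum_subtype _ (fun h => by
        rw [Finset.mem_filter]
        exact ⟨fun h => h.2, fun h => ⟨Finset.mem_univ _, h⟩⟩) _).symm
    rw [e1]
    have hAY : A ⊆ Y := by
      intro h hh
      rw [hY, Finset.mem_filter]
      exact ⟨Finset.mem_univ _, hAy h hh⟩
    rw [← Finset.sum_subset hAY fun h hh hhA => ?_]
    · rw [Finset.sum_congr rfl (fun h hh => (by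
        rw [← (hu h hh).2, hcl] : η h = η g)), Finset.sum_const, nsmul_eq_mul]
    · rw [hY, Finset.mem_filter] at hh
      apply hz
      apply cyc_lt hh.2
      by_contra hcon
      push Not at hcon
      apply hhA
      rw [hAm]
      exact fun x y => ⟨fun h1 => hcon x y h1, fun h1 => refine_young hh.2 h1⟩
  obtain ⟨m, hm⟩ := hint
  rw [hsum, ← hYc] at hm
  have hApos : 0 < A.card := Finset.card_pos.2 ⟨g, hgA⟩
  have hM0 : 0 ≤ M := (abs_nonneg _).trans (hM g)
  have hSpos : (0 : ℝ) < S.card := lt_of_le_of_lt hM0 hS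
  have hApos' : (0 : ℝ) < A.card := by exact_mod_cast hApos
  have hcard' : (A.card : ℝ) * S.card ≤ Y.card := by exact_mod_cast hcard
  have hYpos : (0 : ℝ) < Y.card := lt_of_lt_of_le (by positivity) hcard'
  have hm0 : m = 0 := by
    have h1 : |(m : ℝ)| < 1 := by
      have h2 : |(m : ℝ)| * Y.card ≤ A.card * M := by
        have h3 : |(m : ℝ)| * Y.card = |(m : ℝ) * Y.card| := by
          rw [abs_mul, abs_of_pos hYpos]
        rw [h3, ← hm, abs_mul, abs_of_pos hApos']
        exact mul_le_mul_of_nonneg_left (hM g) hApos'.le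
      have h4 : (A.card : ℝ) * M < Y.card :=
        lt_of_lt_of_le (mul_lt_mul_of_pos_left hS hApos') hcard'
      by_contra h5
      push Not at h5
      have h6 : (1 : ℝ) * Y.card ≤ |(m : ℝ)| * Y.card := mul_le_mul_of_nonneg_right h5 hYpos.le
      linarith
    have h2 : |m| < 1 := by exact_mod_cast h1
    rwa [Int.abs_lt_one_iff] at h2
  rw [hm0, Int.cast_zero, zero_mul] at hm
  rcases mul_eq_zero.1 hm with h1 | h1
  · exact absurd h1 hApos'.ne'
  · exact h1

end

end Pool.Agent.W353.SN
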