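import Pool.Agent.H26.Lib.R_seed8.W353.SN.Step2

/-! Bounded functions on cycle types with integral mean values on all Young subgroups. -/

set_option autoImplicit false
set_option linter.unusedSectionVars false

namespace Pool.Agent.W353.SN

open Equiv Equiv.Perm

/-- cycle types -/
def Val (μ : Multiset ℕ) : Prop := ∀ a ∈ μ, 2 ≤ a

theorem Val.add {μ ν : Multiset ℕ} (h : Val μ) (h' : Val ν) : Val (μ + ν) := by
  intro a ha
  rcases Multiset.mem_add.1 ha with h1 | h1
  · exact h a h1
  · exact h' a h1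

theorem Val.cons {μ : Multiset ℕ} {k : ℕ} (hk : 2 ≤ k) (h : Val μ) : Val (k ::ₘ μ) := by
  intro a ha
  rcases Multiset.mem_cons.1 ha with h1 | h1
  · rw [h1]
    exact hk
  · exact h a h1

theorem val_zero : Val 0 := fun a ha => absurd ha (Multiset.notMem_zero a)

theorem val_nsmul {μ : Multiset ℕ} (h : Val μ) (n : ℕ) : Val (n • μ) := by
  induction n with
  | zero =>
    rw [zero_smul]
    exact val_zero
  | succ n ih =>
    rw [succ_nsmul]
    exact ih.add h

theorem val_ct {X : Type} [Fintype X] [DecidableEq X] (x : Perm X) : Val x.cycleType :=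
  fun _ ha => two_le_of_mem_cycleType ha

section
variable {A B X Z : Type} [Fintype A] [DecidableEq A] [Fintype B] [DecidableEq B] [Fintype X]
  [DecidableEq X] [Fintype Z] [DecidableEq Z]

theorem ct_via (e : X ↪ Z) (y : Perm X) : (viaEmbeddingHom e y).cycleType = y.cycleType := by
  classical
  rw [viaEmbeddingHom_apply]
  unfold viaEmbedding
  exact @cycleType_extendDomain X _ _ Z _ _ _ (fun a => Classical.propDecidable _) _ _

theorem via_inl (x : Perm A) : viaEmbeddingHom (Function.Embedding.inl : A ↪ A ⊕ B) x =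
    Perm.sumCongr x 1 := by
  ext z
  rcases z with a | b
  · change viaEmbeddingHom _ x ((Function.Embedding.inl : A ↪ A ⊕ B) a) = _
    rw [viaEmbeddingHom_apply, viaEmbedding_apply]
    rfl
  · rw [viaEmbeddingHom_apply, viaEmbedding_apply_of_notMem _ _ _ (by
      rintro ⟨a, ha⟩
      exact Sum.inl_ne_inr ha)]
    rfl

theorem via_inr (y : Perm B) : viaEmbeddingHom (Function.Embedding.inr : B ↪ A ⊕ B) y =
    Perm.sumCongr 1 y := by
  ext z
  rcases z with a | b
  · rw [viaEmbeddingHom_apply, viaEmbedding_apply_of_notMem _ _ _ (by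
      rintro ⟨a, ha⟩
      exact Sum.inr_ne_inl ha)]
    rfl
  · change viaEmbeddingHom _ y ((Function.Embedding.inr : B ↪ A ⊕ B) b) = _
    rw [viaEmbeddingHom_apply, viaEmbedding_apply]
    rfl

theorem ct_sum (x : Perm A) (y : Perm B) :
    (Perm.sumCongr x y).cycleType = x.cycleType + y.cycleType := by
  have h1 : Perm.sumCongr x y = Perm.sumCongr x 1 * Perm.sumCongr 1 y := by
    rw [Perm.sumCongr_mul, mul_one, one_mul]
  have h2 : Disjoint (Perm.sumCongr x (1 : Perm B)) (Perm.sumCongr (1 : Perm A) y) := by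
    intro z
    rcases z with a | b
    · exact Or.inr rfl
    · exact Or.inl rfl
  rw [h1, h2.cycleType_mul, ← via_inl, ← via_inr, ct_via, ct_via]

end

/-- integral mean values on all Young subgroups -/
def IsL (f : Multiset ℕ → ℝ) : Prop :=
  ∀ (X : Type) [Fintype X] [DecidableEq X], YS fun y : Perm X => f y.cycleType

theorem IsL.congr {f g : Multiset ℕ → ℝ} (h : IsL f) (he : ∀ μ, Val μ → f μ = g μ) : IsL g :=
  fun X _ _ => (h X).congr fun y => he _ (val_ct y)

theorem IsL.sub {f g : Multiset ℕ → ℝ} (h : IsL f) (h' : IsL g) : IsL fun μ => f μ - g μ :=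
  fun X _ _ => (h X).sub (h' X)

theorem IsL.neg {f : Multiset ℕ → ℝ} (h : IsL f) : IsL fun μ => -f μ :=
  fun X _ _ => (h X).neg

/-- the mean value over a symmetric group -/
noncomputable def TM (k : ℕ) (f : Multiset ℕ → ℝ) (μ : Multiset ℕ) : ℝ :=
  (∑ x : Perm (Fin k), f (x.cycleType + μ)) / Fintype.card (Perm (Fin k))

theorem IsL.tm {f : Multiset ℕ → ℝ} (h : IsL f) (k : ℕ) : IsL (TM k f) := by
  intro X _ _
  refine (YS.block (h (Fin k ⊕ X))).congr fun y => ?_
  unfold TM
  congr 1
  exact Finset.sum_congr rfl fun x _ => by rw [ct_sum]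

/-- small functions vanish -/
theorem zero_of_small {g : Multiset ℕ → ℝ} (h : IsL g) {M : ℝ} (hM : ∀ μ, |g μ| ≤ M)
    (hM1 : M < 1) {μ : Multiset ℕ} (hμ : Val μ) : g μ = 0 := by
  obtain ⟨y, hy⟩ := (Equiv.Perm.exists_with_cycleType_iff (Fin μ.sum) (m := μ)).2
    ⟨by rw [Fintype.card_fin], hμ⟩
  rw [← hy]
  refine reduce2 (η := fun y : Perm (Fin _) => g y.cycleType) (fun x u => by
    change g (u * x * u⁻¹).cycleType = g x.cycleType
    rw [cycleType_conj]) (h _).ymean (fun x => hM _) (k := 1) (by exact_mod_cast hM1)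
    (fun x => Or.inr (lt_of_le_of_lt (hM _) hM1)) y

/-- the difference operator -/
noncomputable def DD (α β : Multiset ℕ) (c : ℝ) (f : Multiset ℕ → ℝ) (μ : Multiset ℕ) : ℝ :=
  (f (α + μ) - f (β + μ)) / c

/-- **The key lemma.** -/
theorem key {P : (Multiset ℕ → ℝ) → Prop} {α β : Multiset ℕ} (hα : Val α) (hβ : Val β) {c : ℝ}
    (hc : 2 < c) (hP : ∀ f, P f → P (DD α β c f)) (hL : ∀ f, P f → IsL f)
    (hββ : ∀ f, P f → ∀ μ, Val μ → f (β + β + μ) = f μ) {f : Multiset ℕ → ℝ} (hf : P f) {N : ℝ}
    (hN : ∀ μ, |f μ| ≤ N) {μ : Multiset ℕ} (hμ : Val μ) : f (α + μ) = f (β + μ) := by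
  have hc0 : 0 < c := by linarith
  have hN0 : 0 ≤ N := (abs_nonneg _).trans (hN 0)
  set g : ℕ → Multiset ℕ → ℝ := fun i => (DD α β c)^[i] f with hg
  have hgs : ∀ i, g (i + 1) = DD α β c (g i) := fun i => Function.iterate_succ_apply' _ _ _
  have hgP : ∀ i, P (g i) := by
    intro i
    induction i with
    | zero => exact hf
    | succ i ih =>
      rw [hgs]
      exact hP _ ih
  have hgb : ∀ i μ, |g i μ| ≤ N * (2 / c) ^ i := by
    intro i
    induction i with
    | zero =>
      intro μ
      rw [pow_zero, mul_one]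
      exact hN μ
    | succ i ih =>
      intro μ
      rw [hgs]
      unfold DD
      rw [abs_div, abs_of_pos hc0, div_le_iff₀ hc0]
      have h1 := ih (α + μ)
      have h2 := ih (β + μ)
      have h3 : |g i (α + μ) - g i (β + μ)| ≤ N * (2 / c) ^ i + N * (2 / c) ^ i :=
        (abs_sub _ _).trans (add_le_add h1 h2)
      have h4 : N * (2 / c) ^ (i + 1) * c = N * (2 / c) ^ i + N * (2 / c) ^ i := by
        rw [pow_succ]
        field_simp
        ring
      rw [h4]
      exact h3
  -- some iterate vanishes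
  obtain ⟨i, hi⟩ : ∃ i, ∀ μ, Val μ → g i μ = 0 := by
    have hr : 2 / c < 1 := by rw [div_lt_one hc0]; exact hc
    obtain ⟨i, hi⟩ := exists_pow_lt_of_lt_one (x := 1 / (N + 1)) (by positivity) hr
    refine ⟨i, fun μ hμ => zero_of_small (hL _ (hgP i)) (hgb i) ?_ hμ⟩
    have h1 : N * (2 / c) ^ i ≤ N * (1 / (N + 1)) := mul_le_mul_of_nonneg_left hi.le hN0
    have h2 : N * (1 / (N + 1)) < 1 := by
      rw [mul_one_div, div_lt_one (by linarith)]
      linarith
    linarith
  have hi1 : ∀ μ, Val μ → g (i + 1) μ = 0 := by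
    intro μ hμ
    rw [hgs]
    unfold DD
    rw [hi _ (hα.add hμ), hi _ (hβ.add hμ), sub_self, zero_div]
  -- the descent
  have hdesc : ∀ j, (∀ μ, Val μ → g (j + 2) μ = 0) → ∀ μ, Val μ → g (j + 1) μ = 0 := by
    intro j hj
    have hg1 : ∀ μ, Val μ → g (j + 1) (α + μ) = g (j + 1) (β + μ) := by
      intro μ hμ
      have h1 := hj μ hμ
      rw [hgs] at h1
      unfold DD at h1
      rcases div_eq_zero_iff.1 h1 with h2 | h2
      · linarith
      · exact absurd h2 hc0.ne'
    have hh : ∀ μ, g j (α + μ) = g j (β + μ) + c * g (j + 1) μ := by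
      intro μ
      rw [hgs]
      unfold DD
      field_simp
      ring
    have hclaim : ∀ n : ℕ, ∀ μ, Val μ → g j ((n + 1) • α + μ) = g j ((n + 1) • β + μ) +
        (n + 1) * c * g (j + 1) (n • β + μ) := by
      intro n
      induction n with
      | zero =>
        intro μ hμ
        rw [zero_add, one_smul, one_smul, zero_smul, zero_add, hh]
        push_cast
        ring
      | succ n ih =>
        intro μ hμ
        have e1 : (n + 1 + 1) • α + μ = (n + 1) • α + (α + μ) := by
          rw [succ_nsmul, add_assoc]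
        have e2 : (n + 1) • β + (α + μ) = α + ((n + 1) • β + μ) := by
          rw [add_left_comm]
        have e3 : n • β + (α + μ) = α + (n • β + μ) := by
          rw [add_left_comm]
        have e4 : β + ((n + 1) • β + μ) = (n + 1 + 1) • β + μ := by
          rw [← add_assoc, add_comm β, ← succ_nsmul]
        have e5 : β + (n • β + μ) = (n + 1) • β + μ := by
          rw [← add_assoc, add_comm β, ← succ_nsmul]
        rw [e1, ih (α + μ) (hα.add hμ), e2, hh, e4, e3, hg1 _ ((val_nsmul hβ n).add hμ), e5]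
        push_cast
        ring
    have hper : ∀ m : ℕ, ∀ μ, Val μ → g (j + 1) ((2 * m) • β + μ) = g (j + 1) μ := by
      intro m
      induction m with
      | zero =>
        intro μ hμ
        rw [mul_zero, zero_smul, zero_add]
      | succ m ih =>
        intro μ hμ
        have e1 : (2 * (m + 1)) • β + μ = β + β + ((2 * m) • β + μ) := by
          rw [mul_add, mul_one, add_smul, two_nsmul, add_comm ((2 * m) • β), add_assoc]
        rw [e1, hββ _ (hgP _) _ ((val_nsmul hβ _).add hμ), ih μ hμ]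
    intro μ hμ
    set C : ℝ := N * (2 / c) ^ j with hC
    have hbd : ∀ m : ℕ, (2 * m + 1) * (c * |g (j + 1) μ|) ≤ 2 * C := by
      intro m
      have h1 := hclaim (2 * m) μ hμ
      rw [hper m μ hμ] at h1
      have h2 : (2 * m + 1) * (c * g (j + 1) μ) =
          g j ((2 * m + 1) • α + μ) - g j ((2 * m + 1) • β + μ) := by
        rw [h1]
        push_cast
        ring
      have h3 : (2 * (m : ℝ) + 1) * (c * |g (j + 1) μ|) = |(2 * m + 1) * (c * g (j + 1) μ)| := by
        rw [abs_mul, abs_mul, abs_of_pos hc0, abs_of_nonneg (a := 2 * (m : ℝ) + 1) (by positivity)]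
      rw [h3, h2]
      refine (abs_sub _ _).trans ?_
      have h4 := hgb j ((2 * m + 1) • α + μ)
      have h5 := hgb j ((2 * m + 1) • β + μ)
      linarith
    by_contra hne
    have hpos : 0 < c * |g (j + 1) μ| := mul_pos hc0 (abs_pos.2 hne)
    obtain ⟨m, hm⟩ := exists_nat_gt (2 * C / (c * |g (j + 1) μ|))
    rw [div_lt_iff₀ hpos] at hm
    have h1 := hbd m
    have h2 : (m : ℝ) * (c * |g (j + 1) μ|) ≤ (2 * m + 1) * (c * |g (j + 1) μ|) :=
      mul_le_mul_of_nonneg_right (by
        have : (0 : ℝ) ≤ m := Nat.cast_nonneg m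
        linarith) hpos.le
    linarith
  have hone : ∀ j, (∀ μ, Val μ → g (j + 1) μ = 0) → ∀ μ, Val μ → g 1 μ = 0 := by
    intro j
    induction j with
    | zero => exact fun h => h
    | succ j ih => exact fun h => ih (hdesc j h)
  have h1 := hone i hi1 μ hμ
  have h2 : g 1 = DD α β c f := hgs 0
  rw [h2] at h1
  unfold DD at h1
  rcases div_eq_zero_iff.1 h1 with h3 | h3
  · linarith
  · exact absurd h3 hc0.ne'

end Pool.Agent.W353.SN
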