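import Pool.Agent.H26.Lib.R_seed8.W353.SN.Stable

/-! Bounded functions on cycle types with integral mean values depend only on the sign. -/

set_option autoImplicit false
set_option linter.unusedSectionVars false

namespace Pool.Agent.W353.SN

open Equiv Equiv.Perm

/-- adding two transpositions changes nothing -/
def R2 (f : Multiset ℕ → ℝ) : Prop := ∀ μ, Val μ → f (2 ::ₘ 2 ::ₘ μ) = f μ

/-- adding a `k`-cycle depends only on the parity -/
def Rk (k : ℕ) (f : Multiset ℕ → ℝ) : Prop :=
  ∀ μ, Val μ → f (k ::ₘ μ) = if Odd k then f μ else f (2 ::ₘ μ)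

/-- the class of functions at the level `k` -/
def Pk (k : ℕ) (f : Multiset ℕ → ℝ) : Prop := IsL f ∧ R2 f ∧ ∀ j, 2 ≤ j → j < k → Rk j f

theorem eval_small {k : ℕ} {f : Multiset ℕ → ℝ} (hf : Pk k f) (ν : Multiset ℕ) (hν : Val ν)
    (hk : ∀ a ∈ ν, a < k) : ∀ μ, Val μ →
      f (ν + μ) = if Even (ν.sum + Multiset.card ν) then f μ else f (2 ::ₘ μ) := by
  induction ν using Multiset.induction_on with
  | empty =>
    intro μ _
    rw [zero_add, if_pos (by simp)]
  | cons a ν ih =>
    intro μ hμ
    have ha := hν a (Multiset.mem_cons_self a ν)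
    have hν' : Val ν := fun b hb => hν b (Multiset.mem_cons_of_mem hb)
    have hk' : ∀ b ∈ ν, b < k := fun b hb => hk b (Multiset.mem_cons_of_mem hb)
    have h1 := hf.2.2 a ha (hk a (Multiset.mem_cons_self a ν)) (ν + μ) (hν'.add hμ)
    rw [Multiset.cons_add, h1, Multiset.sum_cons, Multiset.card_cons]
    have e : 2 ::ₘ (ν + μ) = ν + 2 ::ₘ μ := by rw [Multiset.add_cons]
    rw [e, ih hν' hk' μ hμ, ih hν' hk' (2 ::ₘ μ) (hμ.cons le_rfl), hf.2.1 μ hμ]
    by_cases h2 : Odd a
    · rw [if_pos h2]
      have h3 : Even (a + ν.sum + (Multiset.card ν + 1)) ↔ Even (ν.sum + Multiset.card ν) := by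
        have e2 : a + ν.sum + (Multiset.card ν + 1) = (a + 1) + (ν.sum + Multiset.card ν) := by
          ring
        rw [e2, Nat.even_add]
        have h4 : Even (a + 1) := h2.add_one
        simp [h4]
      by_cases h5 : Even (ν.sum + Multiset.card ν)
      · rw [if_pos h5, if_pos (h3.2 h5)]
      · rw [if_neg h5, if_neg (fun h => h5 (h3.1 h))]
    · rw [if_neg h2]
      have h3 : Even (a + ν.sum + (Multiset.card ν + 1)) ↔ ¬ Even (ν.sum + Multiset.card ν) := by
        have e2 : a + ν.sum + (Multiset.card ν + 1) = (a + 1) + (ν.sum + Multiset.card ν) := by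
          ring
        rw [e2, Nat.even_add]
        have h4 : ¬ Even (a + 1) := by
          rw [Nat.even_add_one, not_not]
          exact Nat.not_odd_iff_even.1 h2
        simp [h4]
      by_cases h5 : Even (ν.sum + Multiset.card ν)
      · rw [if_pos h5, if_neg (fun h => (h3.1 h) h5)]
      · rw [if_neg h5, if_pos (h3.2 h5)]

/-- the cycle types of the symmetric group on `k` letters -/
theorem ct_cases {k : ℕ} (x : Perm (Fin k)) : x.cycleType = {k} ∨ ∀ a ∈ x.cycleType, a < k := by
  by_cases h : ∀ a ∈ x.cycleType, a < k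
  · exact Or.inr h
  · left
    push Not at h
    obtain ⟨a, ha, hak⟩ := h
    obtain ⟨ν, hν⟩ := Multiset.exists_cons_of_mem ha
    have h1 := sum_cycleType_le x
    rw [Fintype.card_fin, hν, Multiset.sum_cons] at h1
    have h2 : a = k := by omega
    have h3 : ν.sum = 0 := by omega
    have h4 : ν = 0 := by
      rw [Multiset.eq_zero_iff_forall_notMem]
      intro b hb
      have h5 : 2 ≤ b := two_le_of_mem_cycleType (σ := x) (by
        rw [hν]
        exact Multiset.mem_cons_of_mem hb)
      have h6 := Multiset.single_le_sum (fun c _ => Nat.zero_le c) b hb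
      omega
    rw [hν, h4, h2]
    rfl

/-- sums over the sign -/
theorem sum_sgn {k : ℕ} (hk : 2 ≤ k) (u v : ℝ) :
    (∑ x : Perm (Fin k), if sign x = 1 then u else v) =
      (Fintype.card (Perm (Fin k)) : ℝ) * ((u + v) / 2) := by
  classical
  set s : Perm (Fin k) := swap ⟨0, by omega⟩ ⟨1, by omega⟩ with hs
  have hs1 : sign s = -1 := sign_swap (by simp)
  have h1 : (∑ x : Perm (Fin k), if sign x = 1 then u else v) =
      ∑ x : Perm (Fin k), if sign (s * x) = 1 then u else v :=
    (Equiv.sum_comp (Equiv.mulLeft s) fun x => if sign x = 1 then u else v).symm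
  have h2 : (∑ x : Perm (Fin k), if sign x = 1 then u else v) +
      (∑ x : Perm (Fin k), if sign (s * x) = 1 then u else v) =
      ∑ _x : Perm (Fin k), (u + v) := by
    rw [← Finset.sum_add_distrib]
    refine Finset.sum_congr rfl fun x _ => ?_
    rw [Perm.sign_mul, hs1]
    rcases Int.units_eq_one_or (sign x) with h | h <;> rw [h]
    · rw [if_pos rfl, if_neg (by decide)]
    · rw [if_neg (by decide), if_pos (by decide), add_comm]
  rw [← h1, Finset.sum_const, nsmul_eq_mul, Finset.card_univ] at h2
  linarith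

theorem card_kcycle {k : ℕ} (hk : 2 ≤ k) :
    (Fintype.card (Perm (Fin k)) : ℝ) =
      k * ((Finset.univ.filter fun x : Perm (Fin k) => x.cycleType = {k}).card : ℝ) := by
  have h1 := card_of_cycleType_singleton (α := Fin k) hk (by rw [Fintype.card_fin])
  rw [Fintype.card_fin, Nat.choose_self, mul_one] at h1
  rw [h1, Fintype.card_perm, Fintype.card_fin]
  have h2 : k.factorial = k * (k - 1).factorial := by
    rw [mul_comm, Nat.mul_comm, Nat.mul_factorial_pred (by omega)]
  rw [h2]
  push_cast
  ring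

/-- the mean value of a function of the class -/
theorem tm_eq {k : ℕ} (hk : 2 ≤ k) {f : Multiset ℕ → ℝ} {u v w : ℝ} {μ : Multiset ℕ}
    (h1 : ∀ x : Perm (Fin k), (∀ a ∈ x.cycleType, a < k) →
      f (x.cycleType + μ) = if sign x = 1 then u else v)
    (h2 : f (k ::ₘ μ) = w) :
    TM k f μ = (u + v) / 2 + (w - if Odd k then u else v) / k := by
  classical
  have hk0 : (k : ℝ) ≠ 0 := by
    have : 0 < k := by omega
    exact_mod_cast this.ne'
  have hc0 : (Fintype.card (Perm (Fin k)) : ℝ) ≠ 0 := by exact_mod_cast Fintype.card_ne_zero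
  set δ : ℝ := w - if Odd k then u else v with hδ
  have h3 : ∀ x : Perm (Fin k), f (x.cycleType + μ) =
      (if sign x = 1 then u else v) + if x.cycleType = {k} then δ else 0 := by
    intro x
    by_cases hx : x.cycleType = {k}
    · rw [if_pos hx, hx, Multiset.singleton_add, h2, hδ]
      have hs : sign x = 1 ↔ Odd k := by
        rw [sign_of_cycleType, hx, Multiset.sum_singleton, Multiset.card_singleton]
        constructor
        · intro h
          by_contra hodd
          have h4 : Odd (k + 1) := (Nat.not_odd_iff_even.1 hodd).add_one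
          rw [h4.neg_one_pow] at h
          exact absurd h (by decide)
        · intro h
          exact (h.add_one).neg_one_pow
      by_cases ho : Odd k
      · rw [if_pos ho, if_pos (hs.2 ho)]
        ring
      · rw [if_neg ho, if_neg (fun h => ho (hs.1 h))]
        ring
    · rw [if_neg hx, add_zero]
      rcases ct_cases x with h4 | h4
      · exact absurd h4 hx
      · exact h1 x h4
  unfold TM
  rw [Finset.sum_congr rfl fun x _ => h3 x, Finset.sum_add_distrib, sum_sgn hk,
    ← Finset.sum_filter, Finset.sum_const, nsmul_eq_mul, add_div, mul_div_cancel_left₀ _ hc0]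
  congr 1
  have h5 := card_kcycle hk
  rw [div_eq_div_iff hc0 hk0, h5]
  ring

theorem ite_even_sign {k : ℕ} (x : Perm (Fin k)) (u v : ℝ) :
    (if Even (x.cycleType.sum + Multiset.card x.cycleType) then u else v) =
      if sign x = 1 then u else v := by
  have h : Even (x.cycleType.sum + Multiset.card x.cycleType) ↔ sign x = 1 := by
    rw [sign_of_cycleType]
    constructor
    · exact fun h => h.neg_one_pow
    · intro h
      by_contra hodd
      rw [(Nat.not_even_iff_odd.1 hodd).neg_one_pow] at h
      exact absurd h (by decide)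
  by_cases h1 : sign x = 1
  · rw [if_pos h1, if_pos (h.2 h1)]
  · rw [if_neg h1, if_neg (fun h' => h1 (h.1 h'))]

theorem tm_two {f : Multiset ℕ → ℝ} (μ : Multiset ℕ) : TM 2 f μ = (f μ + f (2 ::ₘ μ)) / 2 := by
  have h := tm_eq (k := 2) le_rfl (f := f) (u := f μ) (v := f (2 ::ₘ μ)) (w := f (2 ::ₘ μ))
    (μ := μ) (fun x hx => by
      have h0 : x.cycleType = 0 := by
        rw [Multiset.eq_zero_iff_forall_notMem]
        intro a ha
        have h1 := hx a ha
        have h2 : 2 ≤ a := two_le_of_mem_cycleType ha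
        omega
      have h1 : x = 1 := cycleType_eq_zero.1 h0
      rw [h0, zero_add, h1, Perm.sign_one, if_pos rfl]) rfl
  rw [h, if_neg (by decide), sub_self, zero_div, add_zero]

theorem tm_k {k : ℕ} (hk : 2 ≤ k) {f : Multiset ℕ → ℝ} (hf : Pk k f) {μ : Multiset ℕ}
    (hμ : Val μ) : TM k f μ = (f μ + f (2 ::ₘ μ)) / 2 +
      (f (k ::ₘ μ) - if Odd k then f μ else f (2 ::ₘ μ)) / k :=
  tm_eq hk (fun x hx => by
    rw [eval_small hf _ (val_ct x) hx μ hμ, ite_even_sign]) rfl

theorem R2.dd {f : Multiset ℕ → ℝ} (h : R2 f) {α β : Multiset ℕ} (hα : Val α) (hβ : Val β)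
    (c : ℝ) : R2 (DD α β c f) := by
  intro μ hμ
  unfold DD
  rw [Multiset.add_cons, Multiset.add_cons, Multiset.add_cons, Multiset.add_cons,
    h _ (hα.add hμ), h _ (hβ.add hμ)]

theorem Rk.dd {f : Multiset ℕ → ℝ} {k : ℕ} (h : Rk k f) {α β : Multiset ℕ} (hα : Val α)
    (hβ : Val β) (c : ℝ) : Rk k (DD α β c f) := by
  intro μ hμ
  unfold DD
  rw [Multiset.add_cons, Multiset.add_cons, h _ (hα.add hμ), h _ (hβ.add hμ)]
  by_cases ho : Odd k
  · rw [if_pos ho, if_pos ho, if_pos ho]
  · rw [if_neg ho, if_neg ho, if_neg ho, Multiset.add_cons, Multiset.add_cons]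

/-- two transpositions -/
theorem stable_two {f : Multiset ℕ → ℝ} (hf : IsL f) {N : ℝ} (hN : ∀ μ, |f μ| ≤ N) : R2 f := by
  intro μ hμ
  have h := key (P := IsL) (α := 2 ::ₘ 2 ::ₘ 0) (β := 0) (c := 4)
    ((val_zero.cons le_rfl).cons le_rfl) val_zero (by norm_num) (fun g hg => by
      refine ((hg.tm 2).tm 2).sub (hg.tm 2) |>.congr fun ν hν => ?_
      rw [tm_two, tm_two, tm_two]
      unfold DD
      rw [Multiset.cons_add, Multiset.cons_add, zero_add]
      ring) (fun g hg => hg) (fun g _ ν _ => by rw [zero_add, zero_add]) hf hN hμ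
  rw [Multiset.cons_add, Multiset.cons_add, zero_add] at h
  exact h

theorem stable_k {f : Multiset ℕ → ℝ} (hf : IsL f) {N : ℝ} (hN : ∀ μ, |f μ| ≤ N) :
    ∀ k, 2 ≤ k → Rk k f := by
  intro k
  induction k using Nat.strong_induction_on with
  | _ k ih =>
    intro hk
    rcases Nat.eq_or_lt_of_le hk with h2 | h2
    · subst h2
      intro μ _
      rw [if_neg (by decide)]
    have hPf : Pk k f := ⟨hf, stable_two hf hN, fun j hj hjk => ih j hjk hj⟩
    intro μ hμ
    set β : Multiset ℕ := if Odd k then 0 else 2 ::ₘ 0 with hβd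
    have hβ : Val β := by
      rw [hβd]
      split_ifs
      · exact val_zero
      · exact val_zero.cons le_rfl
    have hα : Val (k ::ₘ 0) := val_zero.cons hk
    have hβf : ∀ (g : Multiset ℕ → ℝ) (ν : Multiset ℕ), g (β + ν) =
        if Odd k then g ν else g (2 ::ₘ ν) := by
      intro g ν
      rw [hβd]
      by_cases ho : Odd k
      · rw [if_pos ho, if_pos ho, zero_add]
      · rw [if_neg ho, if_neg ho, Multiset.cons_add, zero_add]
    have h := key (P := Pk k) (α := k ::ₘ 0) (β := β) (c := k) hα hβ (by exact_mod_cast h2)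
      (fun g hg => by
        refine ⟨?_, hg.2.1.dd hα hβ _, fun j hj hjk => (hg.2.2 j hj hjk).dd hα hβ _⟩
        refine ((hg.1.tm k).sub (hg.1.tm 2)).congr fun ν hν => ?_
        rw [tm_two, tm_k hk hg hν]
        unfold DD
        rw [hβf g ν, Multiset.cons_add, zero_add]
        ring) (fun g hg => hg.1) (fun g hg ν hν => by
        rw [add_assoc, hβf g (β + ν)]
        by_cases ho : Odd k
        · rw [if_pos ho, hβf g ν, if_pos ho]
        · rw [if_neg ho, ← Multiset.add_cons, hβf g (2 ::ₘ ν), if_neg ho]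
          exact hg.2.1 ν hν) hPf hN hμ
    rw [hβf f μ, Multiset.cons_add, zero_add] at h
    exact h

/-- **Bounded functions on cycle types with integral mean values.** -/
theorem stable {f : Multiset ℕ → ℝ} (hf : IsL f) {N : ℝ} (hN : ∀ μ, |f μ| ≤ N) {μ : Multiset ℕ}
    (hμ : Val μ) : f μ = if Even (μ.sum + Multiset.card μ) then f 0 else f (2 ::ₘ 0) := by
  have h := eval_small (k := μ.sum + 1) ⟨hf, stable_two hf hN, fun j hj _ => stable_k hf hN j hj⟩
    μ hμ (fun a ha => Nat.lt_succ_of_le (Multiset.single_le_sum (fun c _ => Nat.zero_le c) a ha))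
    0 val_zero
  rw [add_zero] at h
  exact h

end Pool.Agent.W353.SN
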