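import Pool.Agent.H26.Lib.R_seed8.W353.SN.Yg

/-! The step with a local bound, and the reduction to permutations of small support. -/

set_option autoImplicit false
set_option linter.unusedSectionVars false

namespace Pool.Agent.W353.SN

open Equiv Equiv.Perm

section
variable {X : Type} [Finite X]

/-- **The step**, with a bound at one element only. -/
theorem stepg {η : Perm X → ℝ} (hcl : ∀ g u, η (u * g * u⁻¹) = η g) {M : ℝ}
    (g : Perm X) (hM : |η g| ≤ M) (hint : ∃ m : ℤ, ∑ᶠ h : young g, η h = m * Nat.card (young g))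
    (S : Finset (Perm X)) (hS1 : ∀ s ∈ S, s ∈ young g)
    (hS2 : ∀ s ∈ S, s * g = g * s) (hS : M < S.card)
    (hz : ∀ h, cyc g < cyc h → η h = 0) : η g = 0 := by
  classical
  let _ : Fintype X := Fintype.ofFinite X
  set A : Finset (Perm X) := Finset.univ.filter fun h => ∀ x y, g.SameCycle x y ↔ h.SameCycle x y
    with hA
  have hAm : ∀ h, h ∈ A ↔ ∀ x y, g.SameCycle x y ↔ h.SameCycle x y := by
    intro h
    rw [hA, Finset.mem_filter]
    exact ⟨fun h => h.2, fun h => ⟨Finset.mem_univ _, h⟩⟩
  have hAy : ∀ h ∈ A, h ∈ young g := by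
    intro h hh x
    exact ((hAm h).1 hh x (h x)).2 (sameCycle_apply_right.2 SameCycle.rfl)
  have hgA : g ∈ A := (hAm g).2 fun x y => Iff.rfl
  have hu : ∀ h, ∃ u : Perm X, h ∈ A → (∀ x, g.SameCycle x (u x)) ∧ u * g * u⁻¹ = h := by
    intro h
    by_cases hh : h ∈ A
    · obtain ⟨u, hu⟩ := conj_of_same ((hAm h).1 hh)
      exact ⟨u, fun _ => hu⟩
    · exact ⟨1, fun h' => absurd h' hh⟩
  choose u hu using hu
  -- the sum over the group
  set Y : Finset (Perm X) := Finset.univ.filter fun h => h ∈ young g with hY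
  have hYc : Y.card = Nat.card (young g) := by
    rw [hY, Nat.card_eq_fintype_card, ← Fintype.card_subtype]
  have hcard : A.card * S.card ≤ Y.card := by
    rw [← Finset.card_product]
    refine Finset.card_le_card_of_injOn (fun x => u x.1 * x.2) ?_ ?_
    · rintro ⟨h, s⟩ hx
      rw [Finset.mem_coe, Finset.mem_product] at hx
      rw [Finset.mem_coe, hY, Finset.mem_filter]
      exact ⟨Finset.mem_univ _, (young g).mul_mem (hu h hx.1).1 (hS1 s hx.2)⟩
    · rintro ⟨h, s⟩ hx ⟨h', s'⟩ hx' heq
      rw [Finset.mem_coe, Finset.mem_product] at hx hx'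
      simp only at heq hx hx'
      have e1 : ∀ k ∈ A, ∀ t ∈ S, (u k * t) * g * (u k * t)⁻¹ = k := by
        intro k hk t ht
        rw [mul_inv_rev, mul_assoc (u k) t g, hS2 t ht]
        calc u k * (g * t) * (t⁻¹ * (u k)⁻¹) = u k * g * (u k)⁻¹ := by group
          _ = k := (hu k hk).2
      have h1 : h = h' := by rw [← e1 h hx.1 s hx.2, ← e1 h' hx'.1 s' hx'.2, heq]
      subst h1
      have h2 : s = s' := mul_left_cancel heq
      rw [h2]
  have hsum : ∑ᶠ h : young g, η h = A.card * η g := by
    rw [finsum_eq_sum_of_fintype]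
    have e1 : ∑ h : young g, η h = ∑ h ∈ Y, η h := by
      rw [hY]
      exact (Finset.sum_subtype _ (fun h => by
        rw [Finset.mem_filter]
        exact ⟨fun h => h.2, fun h => ⟨Finset.mem_univ _, h⟩⟩) _).symm
    rw [e1]
    have hAY : A ⊆ Y := by
      intro h hh
      rw [hY, Finset.mem_filter]
      exact ⟨Finset.mem_univ _, hAy h hh⟩
    rw [← Finset.sum_subset hAY fun h hh hhA => ?_]
    · rw [Finset.sum_congr rfl (fun h hh => (by
        rw [← (hu h hh).2, hcl] : η h = η g)), Finset.sum_const, nsmul_eq_mul]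
    · rw [hY, Finset.mem_filter] at hh
      apply hz
      apply cyc_lt hh.2
      by_contra hcon
      push Not at hcon
      apply hhA
      rw [hAm]
      exact fun x y => ⟨fun h1 => hcon x y h1, fun h1 => refine_young hh.2 h1⟩
  obtain ⟨m, hm⟩ := hint
  rw [hsum, ← hYc] at hm
  have hApos : 0 < A.card := Finset.card_pos.2 ⟨g, hgA⟩
  have hM0 : 0 ≤ M := (abs_nonneg _).trans hM
  have hSpos : (0 : ℝ) < S.card := lt_of_le_of_lt hM0 hS
  have hApos' : (0 : ℝ) < A.card := by exact_mod_cast hApos
  have hcard' : (A.card : ℝ) * S.card ≤ Y.card := by exact_mod_cast hcard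
  have hYpos : (0 : ℝ) < Y.card := lt_of_lt_of_le (by positivity) hcard'
  have hm0 : m = 0 := by
    have h1 : |(m : ℝ)| < 1 := by
      have h2 : |(m : ℝ)| * Y.card ≤ A.card * M := by
        have h3 : |(m : ℝ)| * Y.card = |(m : ℝ) * Y.card| := by
          rw [abs_mul, abs_of_pos hYpos]
        rw [h3, ← hm, abs_mul, abs_of_pos hApos']
        exact mul_le_mul_of_nonneg_left hM hApos'.le
      have h4 : (A.card : ℝ) * M < Y.card :=
        lt_of_lt_of_le (mul_lt_mul_of_pos_left hS hApos') hcard'
      by_contra h5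
      push Not at h5
      have h6 : (1 : ℝ) * Y.card ≤ |(m : ℝ)| * Y.card := mul_le_mul_of_nonneg_right h5 hYpos.le
      linarith
    have h2 : |m| < 1 := by exact_mod_cast h1
    rwa [Int.abs_lt_one_iff] at h2
  rw [hm0, Int.cast_zero, zero_mul] at hm
  rcases mul_eq_zero.1 hm with h1 | h1
  · exact absurd h1 hApos'.ne'
  · exact h1

end

section
variable {X : Type} [Fintype X] [DecidableEq X]

theorem cyc_le (g : Perm X) : cyc g ≤ Fintype.card X := by
  unfold cyc
  rw [← Nat.card_eq_fintype_card]
  exact Nat.card_le_card_of_surjective (Quotient.mk (SameCycle.setoid g)) Quotient.exists_rep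

/-- the reduction -/
theorem reduce2 {η : Perm X → ℝ} (hcl : ∀ g u, η (u * g * u⁻¹) = η g) (hy : YMean η) {M : ℝ}
    (hM : ∀ g, |η g| ≤ M) {k : ℕ} (hk : M < k) (hg : ∀ g, Many k g ∨ |η g| < 1) (g : Perm X) :
    η g = 0 := by
  classical
  have key : ∀ n : ℕ, ∀ g : Perm X, Fintype.card X - cyc g = n → η g = 0 := by
    intro n
    induction n using Nat.strong_induction_on with
    | _ n ih =>
      intro g hn
      have hz : ∀ h : Perm X, cyc g < cyc h → η h = 0 := by
        intro h hh
        refine ih (Fintype.card X - cyc h) ?_ h rfl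
        have h1 := cyc_le h
        omega
      rcases hg g with ⟨S, hS, hS1, hS2⟩ | h
      · exact stepg hcl g (hM g) (hy g) S hS1 hS2 (by rw [hS]; exact hk) hz
      · refine stepg hcl g le_rfl (hy g) {1} (fun s hs => ?_) (fun s hs => ?_) ?_ hz
        · rw [Finset.mem_singleton] at hs
          rw [hs]
          exact (young g).one_mem
        · rw [Finset.mem_singleton] at hs
          rw [hs, one_mul, mul_one]
        · rw [Finset.card_singleton]
          exact_mod_cast h
  exact key _ g rfl

/-- a permutation of large support commutes with many permutations preserving its orbits -/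
theorem many_support {k : ℕ} {g : Perm X} (h : k * k ≤ g.cycleType.sum) (hk : 0 < k) :
    Many k g := by
  classical
  by_cases ho : k ≤ orderOf g
  · exact many_pow ho
  push Not at ho
  have h1 : ∀ c ∈ g.cycleFactorsFinset, c.support.card ≤ k - 1 := by
    intro c hc
    have hcy := (mem_cycleFactorsFinset_iff.1 hc).1
    have h2 : c.support.card ∣ orderOf g := by
      rw [← lcm_cycleType]
      apply Multiset.dvd_lcm
      rw [cycleType_def, Multiset.mem_map]
      exact ⟨c, hc, rfl⟩
    have h3 := Nat.le_of_dvd (orderOf_pos g) h2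
    omega
  have h2 : g.cycleType.sum ≤ g.cycleFactorsFinset.card * (k - 1) := by
    rw [cycleType_def]
    have := Finset.sum_le_card_nsmul g.cycleFactorsFinset (fun c => c.support.card) (k - 1) h1
    rw [smul_eq_mul] at this
    exact this
  have h3 : k ≤ g.cycleFactorsFinset.card := by
    by_contra hlt
    push Not at hlt
    have h4 : g.cycleFactorsFinset.card * (k - 1) ≤ (k - 1) * (k - 1) :=
      Nat.mul_le_mul_right _ (by omega)
    have h5 : (k - 1) * (k - 1) < k * k := Nat.mul_lt_mul'' (by omega) (by omega)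
    omega
  obtain ⟨S, hS, hSc⟩ := Finset.exists_subset_card_eq h3
  refine ⟨S, hSc, fun c hc x => ?_, fun c hc => ?_⟩
  · have hc' := hS hc
    have hm := mem_cycleFactorsFinset_iff.1 hc'
    by_cases hx : x ∈ c.support
    · rw [hm.2 x hx]
      exact sameCycle_apply_right.2 SameCycle.rfl
    · rw [notMem_support.1 hx]
  · exact (self_mem_cycle_factors_commute (hS hc)).eq

end

end Pool.Agent.W353.SN
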