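import Pool.Agent.H26.Lib.R_seed8.W353.SN.Eqs

/-! Class functions on symmetric groups with integral mean values: values on small permutations. -/

set_option autoImplicit false
set_option linter.unusedSectionVars false

namespace Pool.Agent.W353.SN

open Equiv Equiv.Perm

/-- integers of absolute value at most two -/
theorem int_bd {x : ℝ} {n : ℤ} (hx : x = n) (h : |x| ≤ 2) : -2 ≤ n ∧ n ≤ 2 := by
  rw [hx] at h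
  have h1 : |n| ≤ 2 := by exact_mod_cast h
  exact abs_le.1 h1

theorem arith1 {a b f m3 m4 : ℤ} (ba : -2 ≤ a ∧ a ≤ 2) (bb : -2 ≤ b ∧ b ≤ 2)
    (bf : -2 ≤ f ∧ f ≤ 2) (i4 : a + 3 * b = m3 * 4)
    (i5 : a + 3 * b + 3 * (b + 3 * f) = m4 * 16) : b = a ∧ f = a := by
  obtain ⟨a1, a2⟩ := ba
  obtain ⟨b1, b2⟩ := bb
  interval_cases a <;> interval_cases b <;> omega

theorem arith2 {a t d p q r m1 m8 m10 m12 m14 : ℤ} (ba : -2 ≤ a ∧ a ≤ 2) (bt : -2 ≤ t ∧ t ≤ 2)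
    (bd : -2 ≤ d ∧ d ≤ 2) (bp : -2 ≤ p ∧ p ≤ 2) (bq : -2 ≤ q ∧ q ≤ 2) (br : -2 ≤ r ∧ r ≤ 2)
    (i2 : a + t = m1 * 2)
    (i9 : a + 3 * a + 2 * t + 2 * d = m8 * 8)
    (i11 : a + t + 3 * (a + t) + 2 * (t + a) + 2 * (d + p) = m10 * 16)
    (i13 : a + 3 * a + 3 * (a + 3 * a) + 2 * (t + 3 * t) + 2 * (d + 3 * q) = m12 * 32)
    (i15 : a + 3 * a + 2 * t + 2 * d + 3 * (a + 3 * a + 2 * t + 2 * q) +
      2 * (t + 3 * t + 2 * a + 2 * p) + 2 * (d + 3 * q + 2 * p + 2 * r) = m14 * 64) : d = t := by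
  obtain ⟨a1, a2⟩ := ba
  obtain ⟨b1, b2⟩ := bt
  obtain ⟨d1, d2⟩ := bd
  interval_cases a <;> interval_cases t <;> interval_cases d <;> first | rfl | omega | skip
  all_goals
    exfalso
    obtain ⟨p1, p2⟩ := bp
    obtain ⟨q1, q2⟩ := bq
    interval_cases p <;> first | omega | skip
    all_goals interval_cases q <;> omega

theorem arith3 {a t c e g m1 m15 m16 m18 : ℤ} (ba : -2 ≤ a ∧ a ≤ 2) (bt : -2 ≤ t ∧ t ≤ 2)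
    (bc : -2 ≤ c ∧ c ≤ 2) (be : -2 ≤ e ∧ e ≤ 2) (bg : -2 ≤ g ∧ g ≤ 2)
    (i2 : a + t = m1 * 2) (i16 : a + 3 * t + 2 * c = m15 * 6)
    (i17 : a + t + 3 * (t + a) + 2 * (c + e) = m16 * 12)
    (i19 : a + 2 * c + 2 * (c + 2 * g) = m18 * 9) : c = a := by
  obtain ⟨a1, a2⟩ := ba
  obtain ⟨b1, b2⟩ := bt
  obtain ⟨d1, d2⟩ := bc
  obtain ⟨g1, g2⟩ := bg
  interval_cases a <;> interval_cases c <;> first | rfl | (interval_cases g <;> omega)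

theorem vals (Θ : Perm (Fin 4) × Perm (Fin 4) → ℝ)
    (hc1 : ∀ a b u, Θ (u * a * u⁻¹, b) = Θ (a, b)) (hc2 : ∀ a b u, Θ (a, u * b * u⁻¹) = Θ (a, b))
    (hs : ∀ a b, Θ (a, b) = Θ (b, a)) (htt : Θ (pt, pt) = Θ (pz, 1))
    (hint : YInt Θ) (hb : ∀ x, |Θ x| ≤ 2) :
    (∃ a t : ℤ, Θ (1, 1) = a ∧ Θ (pt, 1) = t) ∧ Θ (pz, 1) = Θ (1, 1) ∧ Θ (pc, 1) = Θ (1, 1) ∧
      Θ (pq, 1) = Θ (pt, 1) := by
  have s1 : Θ (1, pt) = Θ (pt, 1) := hs _ _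
  have s2 : Θ (1, pz) = Θ (pz, 1) := hs _ _
  have s3 : Θ (1, pc) = Θ (pc, 1) := hs _ _
  have s4 : Θ (1, pq) = Θ (pq, 1) := hs _ _
  have s5 : Θ (pt, pz) = Θ (pz, pt) := hs _ _
  have s6 : Θ (pt, pq) = Θ (pq, pt) := hs _ _
  have s7 : Θ (pz, pq) = Θ (pq, pz) := hs _ _
  have s8 : Θ (pt, pc) = Θ (pc, pt) := hs _ _
  obtain ⟨a, e1⟩ := eqII Θ hc1 hc2 hint
  obtain ⟨m1, e2⟩ := eqTI Θ hc1 hc2 hint
  obtain ⟨m2, e3⟩ := eqZI Θ hc1 hc2 hint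
  obtain ⟨m3, e4⟩ := eqVI Θ hc1 hc2 hint
  obtain ⟨m4, e5⟩ := eqVV Θ hc1 hc2 hint
  obtain ⟨m5, e6⟩ := eqZZ Θ hc1 hc2 hint
  obtain ⟨m6, e7⟩ := eqKT Θ hc1 hc2 hint
  obtain ⟨m7, e8⟩ := eqQI Θ hc1 hc2 hint
  obtain ⟨m8, e9⟩ := eqDI Θ hc1 hc2 hint
  obtain ⟨m9, e10⟩ := eqQT Θ hc1 hc2 hint
  obtain ⟨m10, e11⟩ := eqDT Θ hc1 hc2 hint
  obtain ⟨m11, e12⟩ := eqQZ Θ hc1 hc2 hint
  obtain ⟨m12, e13⟩ := eqDV Θ hc1 hc2 hint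
  obtain ⟨m13, e14⟩ := eqQQ Θ hc1 hc2 hint
  obtain ⟨m14, e15⟩ := eqDD Θ hc1 hc2 hint
  obtain ⟨m15, e16⟩ := eqSI Θ hc1 hc2 hint
  obtain ⟨m16, e17⟩ := eqST Θ hc1 hc2 hint
  obtain ⟨m17, e18⟩ := eqSS Θ hc1 hc2 hint
  obtain ⟨m18, e19⟩ := eqCC Θ hc1 hc2 hint
  simp only [s1, s2, s3, s4, s5, s6, s7, s8, htt, mul_one] at *
  have ha : Θ (1, 1) = a := e1
  obtain ⟨t, ht⟩ : ∃ t : ℤ, Θ (pt, 1) = t := ⟨2 * m1 - a, by push_cast; linarith⟩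
  obtain ⟨b, hbb⟩ : ∃ b : ℤ, Θ (pz, 1) = b := ⟨2 * m2 - a, by push_cast; linarith⟩
  obtain ⟨f4, hf4⟩ : ∃ f : ℤ, Θ (pz, pz) = f := ⟨4 * m5 - a - 2 * b, by push_cast; linarith⟩
  have ba := int_bd ha (hb _)
  have bt := int_bd ht (hb _)
  have bb := int_bd hbb (hb _)
  have bf4 := int_bd hf4 (hb _)
  rw [ha, hbb] at e4
  rw [ha, hbb, hf4] at e5
  have i4 : a + 3 * b = m3 * 4 := by exact_mod_cast e4
  have i5 : a + 3 * b + 3 * (b + 3 * f4) = m4 * 16 := by exact_mod_cast e5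
  obtain ⟨hba, hf4a⟩ := arith1 ba bb bf4 i4 i5
  subst hba
  subst hf4a
  rw [ha, ht] at e2
  have i2 : f4 + t = m1 * 2 := by exact_mod_cast e2
  obtain ⟨f3, hf3⟩ : ∃ f : ℤ, Θ (pz, pt) = f :=
    ⟨8 * m6 - f4 - 3 * t - 3 * f4, by push_cast; linarith⟩
  have bf3 := int_bd hf3 (hb _)
  rw [ha, ht, hbb, hf3] at e7
  have i7 : f4 + t + 2 * (t + f4) + (f4 + f3) = m6 * 8 := by exact_mod_cast e7
  have hf3t : f3 = t := by omega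
  subst hf3t
  obtain ⟨d, hd⟩ : ∃ d : ℤ, Θ (pq, 1) = d := ⟨2 * m7 - f4, by push_cast; linarith⟩
  have bd := int_bd hd (hb _)
  rw [ha, hbb, ht, hd] at e9
  have i9 : f4 + 3 * f4 + 2 * f3 + 2 * d = m8 * 8 := by exact_mod_cast e9
  obtain ⟨p, hp⟩ : ∃ p : ℤ, Θ (pq, pt) = p :=
    ⟨4 * m9 - f4 - f3 - d, by push_cast; linarith⟩
  have bp := int_bd hp (hb _)
  rw [ha, ht, hbb, hf3, hd, hp] at e11
  have i11 : f4 + f3 + 3 * (f4 + f3) + 2 * (f3 + f4) + 2 * (d + p) = m10 * 16 := by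
    exact_mod_cast e11
  obtain ⟨q, hq⟩ : ∃ q : ℤ, Θ (pq, pz) = q :=
    ⟨4 * m11 - 2 * f4 - d, by push_cast; linarith⟩
  have bq := int_bd hq (hb _)
  rw [ha, hbb, hf4, ht, hf3, hd, hq] at e13
  have i13 : f4 + 3 * f4 + 3 * (f4 + 3 * f4) + 2 * (f3 + 3 * f3) + 2 * (d + 3 * q) =
      m12 * 32 := by
    exact_mod_cast e13
  obtain ⟨r, hr⟩ : ∃ r : ℤ, Θ (pq, pq) = r :=
    ⟨4 * m13 - f4 - d - q, by push_cast; linarith⟩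
  have br := int_bd hr (hb _)
  rw [ha, hbb, ht, hd, hf4, hf3, hq, hp, hr] at e15
  have i15 : f4 + 3 * f4 + 2 * f3 + 2 * d + 3 * (f4 + 3 * f4 + 2 * f3 + 2 * q) +
      2 * (f3 + 3 * f3 + 2 * f4 + 2 * p) + 2 * (d + 3 * q + 2 * p + 2 * r) = m14 * 64 := by
    exact_mod_cast e15
  have hdt : d = f3 := arith2 ba bt bd bp bq br i2 i9 i11 i13 i15
  obtain ⟨c, hc⟩ : ∃ c : ℤ, Θ (pc, 1) = c := ⟨3 * m15 - m1 - f3, by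
    have : (f4 : ℝ) + f3 = m1 * 2 := by exact_mod_cast i2
    push_cast
    linarith⟩
  have bc := int_bd hc (hb _)
  rw [ha, ht, hc] at e16
  have i16 : f4 + 3 * f3 + 2 * c = m15 * 6 := by exact_mod_cast e16
  obtain ⟨e, he⟩ : ∃ e : ℤ, Θ (pc, pt) = e :=
    ⟨6 * m16 - 2 * f4 - 2 * f3 - c, by push_cast; linarith⟩
  have be := int_bd he (hb _)
  rw [ha, ht, hbb, hc, he] at e17
  have i17 : f4 + f3 + 3 * (f3 + f4) + 2 * (c + e) = m16 * 12 := by exact_mod_cast e17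
  obtain ⟨g, hg⟩ : ∃ g : ℤ, Θ (pc, pc) = g :=
    ⟨9 * m17 - f4 - 3 * m1 - c - 3 * e, by
      have : (f4 : ℝ) + f3 = m1 * 2 := by exact_mod_cast i2
      push_cast
      linarith⟩
  have bg := int_bd hg (hb _)
  rw [ha, hc, hg] at e19
  have i19 : f4 + 2 * c + 2 * (c + 2 * g) = m18 * 9 := by exact_mod_cast e19
  have hca : c = f4 := arith3 ba bt bc be bg i2 i16 i17 i19
  refine ⟨⟨f4, f3, ha, ht⟩, hbb.trans ha.symm, ?_, ?_⟩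
  · rw [hc, hca, ha]
  · rw [hd, hdt, ht]

end Pool.Agent.W353.SN
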