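import Pool.Agent.H26.Lib.R_seed8.W353.SN.Main

/-! Young subgroups of equivalence relations, embeddings and sums. -/

set_option autoImplicit false
set_option linter.unusedSectionVars false

namespace Pool.Agent.W353.SN

open Equiv Equiv.Perm

section
variable {X Z A B : Type}

/-- the permutations preserving the classes of an equivalence relation -/
def yg (r : Setoid X) : Subgroup (Perm X) where
  carrier := {h | ∀ x, r x (h x)}
  one_mem' x := r.refl x
  mul_mem' {a b} ha hb x := r.trans (hb x) (ha (b x))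
  inv_mem' {a} ha x := by
    have h1 := ha (a⁻¹ x)
    have h2 : a (a⁻¹ x) = x := a.apply_symm_apply x
    rw [h2] at h1
    exact r.symm h1

theorem mem_yg {r : Setoid X} {h : Perm X} : h ∈ yg r ↔ ∀ x, r x (h x) := Iff.rfl

/-- integral mean values on the Young subgroups -/
def YS (θ : Perm X → ℝ) : Prop :=
  ∀ r : Setoid X, ∃ m : ℤ, ∑ᶠ h : yg r, θ h = m * Nat.card (yg r)

theorem YS.ymean [Finite X] {θ : Perm X → ℝ} (h : YS θ) : YMean θ := fun g =>
  h (SameCycle.setoid g)

theorem YS.sub [Finite X] {θ θ' : Perm X → ℝ} (h : YS θ) (h' : YS θ') :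
    YS fun g => θ g - θ' g := by
  intro r
  obtain ⟨m, hm⟩ := h r
  obtain ⟨m', hm'⟩ := h' r
  refine ⟨m - m', ?_⟩
  rw [finsum_sub_distrib (Set.toFinite _) (Set.toFinite _), hm, hm']
  push_cast
  ring

theorem YS.neg [Finite X] {θ : Perm X → ℝ} (h : YS θ) : YS fun g => -θ g := by
  intro r
  obtain ⟨m, hm⟩ := h r
  refine ⟨-m, ?_⟩
  rw [finsum_neg_distrib, hm]
  push_cast
  ring

theorem YS.congr {θ θ' : Perm X → ℝ} (h : YS θ) (he : ∀ g, θ g = θ' g) : YS θ' := by
  have : θ = θ' := funext he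
  rw [← this]
  exact h

/-- the extension of an equivalence relation by an embedding -/
def rv (e : X ↪ Z) (r : Setoid X) : Setoid Z where
  r z z' := z = z' ∨ ∃ x x', e x = z ∧ e x' = z' ∧ r x x'
  iseqv :=
    { refl := fun z => Or.inl rfl
      symm := by
        rintro z z' (h | ⟨x, x', h1, h2, h3⟩)
        · exact Or.inl h.symm
        · exact Or.inr ⟨x', x, h2, h1, r.symm h3⟩
      trans := by
        rintro z z' z'' (h | ⟨x, x', h1, h2, h3⟩) (h' | ⟨y, y', g1, g2, g3⟩)
        · exact Or.inl (h.trans h')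
        · exact Or.inr ⟨y, y', g1.trans h.symm, g2, g3⟩
        · exact Or.inr ⟨x, x', h1, h2.trans h', h3⟩
        · have : x' = y := e.injective (h2.trans g1.symm)
          subst this
          exact Or.inr ⟨x, y', h1, g2, r.trans h3 g3⟩ }

theorem yg_via [Finite X] (e : X ↪ Z) (r : Setoid X) (h : Perm Z) :
    h ∈ yg (rv e r) ↔ ∃ y ∈ yg r, viaEmbeddingHom e y = h := by
  constructor
  · intro hh
    have h1 : ∀ x, ∃ x', r x x' ∧ h (e x) = e x' := by
      intro x
      rcases hh (e x) with h2 | ⟨x1, x2, h2, h3, h4⟩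
      · exact ⟨x, r.refl x, h2.symm⟩
      · have h5 : x1 = x := e.injective h2
        rw [h5] at h4
        exact ⟨x2, h4, h3.symm⟩
    choose f hf1 hf2 using h1
    have hfi : Function.Injective f := by
      intro i j hij
      have h3 : h (e i) = h (e j) := by rw [hf2, hf2, hij]
      exact e.injective (h.injective h3)
    refine ⟨Equiv.ofBijective f (Finite.injective_iff_bijective.1 hfi), hf1, ?_⟩
    ext z
    by_cases hz : z ∈ Set.range e
    · obtain ⟨x, rfl⟩ := hz
      rw [viaEmbeddingHom_apply, viaEmbedding_apply, hf2]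
      rfl
    · rw [viaEmbeddingHom_apply, viaEmbedding_apply_of_notMem _ _ _ hz]
      rcases hh z with h2 | ⟨x1, x2, h2, h3, h4⟩
      · exact h2
      · exact absurd ⟨x1, h2⟩ hz
  · rintro ⟨y, hy, rfl⟩ z
    by_cases hz : z ∈ Set.range e
    · obtain ⟨x, rfl⟩ := hz
      rw [viaEmbeddingHom_apply, viaEmbedding_apply]
      exact Or.inr ⟨x, y x, rfl, rfl, hy x⟩
    · rw [viaEmbeddingHom_apply, viaEmbedding_apply_of_notMem _ _ _ hz]

theorem YS.via [Finite X] {θ : Perm Z → ℝ} (h : YS θ) (e : X ↪ Z) :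
    YS fun y : Perm X => θ (viaEmbeddingHom e y) := by
  intro r
  obtain ⟨m, hm⟩ := h (rv e r)
  refine ⟨m, ?_⟩
  let f : yg r → yg (rv e r) := fun y => ⟨viaEmbeddingHom e y, (yg_via e r _).2 ⟨y, y.2, rfl⟩⟩
  have hf : Function.Bijective f := by
    constructor
    · intro y y' hyy
      exact Subtype.ext (viaEmbeddingHom_injective e (congrArg Subtype.val hyy))
    · rintro ⟨g, hg⟩
      obtain ⟨y, hy, rfl⟩ := (yg_via e r _).1 hg
      exact ⟨⟨y, hy⟩, rfl⟩
  rw [Nat.card_eq_of_bijective f hf, ← hm]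
  exact finsum_eq_of_bijective f hf fun y => rfl

/-- the colouring of a sum -/
def colr (A : Type) (r : Setoid B) : A ⊕ B → Option (Quotient r) :=
  Sum.elim (fun _ => none) (fun b => some (Quotient.mk r b))

/-- the equivalence relation on a sum -/
def rs (A : Type) (r : Setoid B) : Setoid (A ⊕ B) := Setoid.ker (colr A r)

theorem yg_sum [Finite A] [Finite B] (r : Setoid B) (h : Perm (A ⊕ B)) :
    h ∈ yg (rs A r) ↔ ∃ x : Perm A, ∃ y ∈ yg r, Perm.sumCongr x y = h := by
  constructor
  · intro hh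
    have h1 : Set.MapsTo h (Set.range Sum.inl) (Set.range Sum.inl) := by
      rintro _ ⟨a, rfl⟩
      have h2 : colr A r (Sum.inl a) = colr A r (h (Sum.inl a)) := hh (Sum.inl a)
      rcases h3 : h (Sum.inl a) with a' | b'
      · exact ⟨a', rfl⟩
      · rw [h3] at h2
        exact absurd h2 (by simp [colr])
    obtain ⟨⟨x, y⟩, hxy⟩ := mem_sumCongrHom_range_of_perm_mapsTo_inl h1
    have hxy' : Perm.sumCongr x y = h := hxy
    refine ⟨x, y, fun b => ?_, hxy'⟩
    have h2 : colr A r (Sum.inr b) = colr A r (h (Sum.inr b)) := hh (Sum.inr b)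
    rw [← hxy'] at h2
    have h3 : (some (Quotient.mk r b) : Option (Quotient r)) = some (Quotient.mk r (y b)) := h2
    exact Quotient.exact (Option.some_injective _ h3)
  · rintro ⟨x, y, hy, rfl⟩ z
    rcases z with a | b
    · rfl
    · have h2 : (some (Quotient.mk r b) : Option (Quotient r)) = some (Quotient.mk r (y b)) := by
        rw [Quotient.sound (hy b)]
      exact h2

theorem sumCongr_inj {x x' : Perm A} {y y' : Perm B} (h : Perm.sumCongr x y = Perm.sumCongr x' y') :
    x = x' ∧ y = y' := by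
  have h1 : sumCongrHom A B (x, y) = sumCongrHom A B (x', y') := h
  have h2 := sumCongrHom_injective h1
  exact ⟨congrArg Prod.fst h2, congrArg Prod.snd h2⟩

theorem YS.block [Fintype A] [DecidableEq A] [Finite B] {θ : Perm (A ⊕ B) → ℝ} (h : YS θ) :
    YS fun y : Perm B => (∑ x : Perm A, θ (Perm.sumCongr x y)) / Fintype.card (Perm A) := by
  classical
  intro r
  obtain ⟨m, hm⟩ := h (rs A r)
  refine ⟨m, ?_⟩
  let _ : Fintype (yg r) := Fintype.ofFinite _
  let _ : Fintype (yg (rs A r)) := Fintype.ofFinite _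
  let f : Perm A × yg r → yg (rs A r) := fun z => ⟨Perm.sumCongr z.1 z.2,
    (yg_sum r _).2 ⟨z.1, z.2, z.2.2, rfl⟩⟩
  have hf : Function.Bijective f := by
    constructor
    · rintro ⟨x, y⟩ ⟨x', y'⟩ h1
      obtain ⟨h2, h3⟩ := sumCongr_inj (congrArg Subtype.val h1)
      exact Prod.ext h2 (Subtype.ext h3)
    · rintro ⟨g, hg⟩
      obtain ⟨x, y, hy, hxy⟩ := (yg_sum r _).1 hg
      exact ⟨(x, ⟨y, hy⟩), Subtype.ext hxy⟩
  have hcard : Nat.card (yg (rs A r)) = Fintype.card (Perm A) * Nat.card (yg r) := by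
    rw [← Nat.card_eq_of_bijective f hf, Nat.card_prod, Nat.card_eq_fintype_card]
  rw [hcard, finsum_eq_sum_of_fintype] at hm
  have h1 : ∑ z : Perm A × yg r, θ (Perm.sumCongr z.1 z.2) = ∑ g : yg (rs A r), θ g :=
    Fintype.sum_bijective f hf _ _ fun z => rfl
  have hne : (Fintype.card (Perm A) : ℝ) ≠ 0 := by exact_mod_cast Fintype.card_ne_zero
  rw [finsum_eq_sum_of_fintype, ← Finset.sum_div, div_eq_iff hne, Finset.sum_comm,
    ← Fintype.sum_prod_type (f := fun z : Perm A × yg r => θ (Perm.sumCongr z.1 z.2)), h1, hm]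
  push_cast
  ring

end

end Pool.Agent.W353.SN
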